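import Pool.Agent.H30ML.GammaP

/-!
The scaled Mittag-Leffler series.
-/

set_option autoImplicit false

namespace Pool.Agent.H30ML

noncomputable section

open Real MeasureTheory Set

/-- the scaled time -/
def t0 : ℝ := 8759007823163055259539 / 10 ^ 24

/-- absolute values of the terms -/
def y (a : ℝ) (k : ℕ) : ℝ := 2 ^ 123 * t0 ^ k / G (a * k + 1)

/-- the variable -/
def vv (a u : ℝ) : ℂ := Complex.exp (u - π * a / 2 * Complex.I)

/-- the terms -/
def ee (a u : ℝ) (k : ℕ) : ℂ := y a k * vv a u ^ k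

theorem t0_pos : 0 < t0 := by unfold t0; norm_num

theorem arg_pos {a : ℝ} (ha : 0 < a) (k : ℕ) : 0 < a * k + 1 := by positivity

theorem y_pos {a : ℝ} (ha : 0 < a) (k : ℕ) : 0 < y a k := by
  unfold y
  have := G_pos (arg_pos ha k)
  have := t0_pos
  positivity

theorem norm_vv (a u : ℝ) : ‖vv a u‖ = Real.exp u := by
  unfold vv
  rw [Complex.norm_exp]
  congr 1
  have : (u - π * a / 2 * Complex.I : ℂ) = ((u : ℝ) : ℂ) + ((-(π * a / 2) : ℝ) : ℂ) * Complex.I := by
    push_cast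
    ring
  rw [this]
  simp

theorem norm_ee {a : ℝ} (ha : 0 < a) (u : ℝ) (k : ℕ) : ‖ee a u k‖ = y a k * Real.exp u ^ k := by
  unfold ee
  rw [norm_mul, norm_pow, norm_vv, Complex.norm_real, Real.norm_eq_abs, abs_of_pos (y_pos ha k)]

theorem pow90 {a : ℝ} (h : a ≤ 17 / 10) : (90 : ℝ) ^ a ≤ 2101 := by
  have h1 : (90 : ℝ) ^ a ≤ 90 ^ ((17 : ℝ) / 10) := Real.rpow_le_rpow_of_exponent_le (by norm_num) h
  refine h1.trans ?_
  have h2 : ((90 : ℝ) ^ ((17 : ℝ) / 10)) ^ (10 : ℕ) ≤ 2101 ^ (10 : ℕ) := by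
    rw [← Real.rpow_natCast, ← Real.rpow_mul (by norm_num)]
    norm_num
  exact le_of_pow_le_pow_left₀ (by norm_num) (by norm_num) h2

/-- the decay of the terms -/
theorem y_succ {a : ℝ} (h1 : 1 ≤ a) (h2 : a ≤ 17 / 10) {k : ℕ} (hk : 1 ≤ k) :
    y a (k + 1) * (a * k + 1) ≤ 20 * y a k := by
  have ha : 0 < a := by linarith
  have hs : 0 < a * k + 1 := arg_pos ha k
  have hk' : (1 : ℝ) ≤ k := by exact_mod_cast hk
  have hs2 : 2 ≤ a * k + 1 + 1 := by nlinarith
  have hG := G_pos hs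
  have hG2 := G_pos (arg_pos ha (k + 1))
  have e : a * (k + 1 : ℕ) + 1 = (a * k + 1) + a := by push_cast; ring
  have hΓ : (a * k + 1) * Real.Gamma (a * k + 1) ≤ Real.Gamma ((a * k + 1) + a) := by
    rw [← Real.Gamma_add_one hs.ne']
    apply Real.Gamma_strictMonoOn_Ici.monotoneOn (by simpa using hs2)
    · show 2 ≤ a * k + 1 + a
      linarith
    · linarith
  have hpow := pow90 h2
  have hmain : (a * k + 1) * G (a * k + 1) ≤ 2101 * G (a * (k + 1 : ℕ) + 1) := by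
    rw [e]
    unfold G
    have h90 : ((1 : ℝ) / 90) ^ (a * k + 1 + a) = (1 / 90) ^ (a * k + 1) * (1 / 90) ^ a :=
      Real.rpow_add (by norm_num) _ _
    have h91 : (90 : ℝ) ^ a * (1 / 90) ^ a = 1 := by
      rw [← Real.mul_rpow (by norm_num) (by norm_num)]
      norm_num
    have p1 : 0 < ((1 : ℝ) / 90) ^ (a * k + 1) := by positivity
    have p2 : 0 < ((1 : ℝ) / 90) ^ a := by positivity
    have p3 := Real.Gamma_pos_of_pos hs
    have p4 : 0 < Real.exp 90 := Real.exp_pos _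
    rw [h90]
    calc (a * k + 1) * (Real.exp 90 * ((1 / 90) ^ (a * k + 1) * Real.Gamma (a * k + 1)))
        = Real.exp 90 * (1 / 90) ^ (a * k + 1) * ((90 : ℝ) ^ a * (1 / 90) ^ a) *
            ((a * k + 1) * Real.Gamma (a * k + 1)) := by rw [h91]; ring
      _ ≤ Real.exp 90 * (1 / 90) ^ (a * k + 1) * (2101 * (1 / 90) ^ a) *
            Real.Gamma ((a * k + 1) + a) := by
          gcongr
      _ = _ := by ring
  have ht := t0_pos
  unfold y
  rw [pow_succ]
  have h3 : t0 * 2101 ≤ 20 := by unfold t0; norm_num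
  rw [div_mul_eq_mul_div, mul_div_assoc', div_le_div_iff₀ hG2 hG]
  calc 2 ^ 123 * (t0 ^ k * t0) * (a * k + 1) * G (a * k + 1)
      = 2 ^ 123 * t0 ^ k * t0 * ((a * k + 1) * G (a * k + 1)) := by ring
    _ ≤ 2 ^ 123 * t0 ^ k * t0 * (2101 * G (a * (k + 1 : ℕ) + 1)) := by gcongr
    _ = 2 ^ 123 * t0 ^ k * (t0 * 2101) * G (a * (k + 1 : ℕ) + 1) := by ring
    _ ≤ 2 ^ 123 * t0 ^ k * 20 * G (a * (k + 1 : ℕ) + 1) := by gcongr
    _ = _ := by ring

/-- the weighted terms -/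
def ww (a : ℝ) (k : ℕ) : ℝ := ((k : ℝ) + 1) ^ 2 * (y a k * (101 / 100) ^ k)

theorem ww_pos {a : ℝ} (ha : 0 < a) (k : ℕ) : 0 < ww a k := by
  unfold ww
  have := y_pos ha k
  positivity

theorem ww_succ {a : ℝ} (h1 : 168 / 100 ≤ a) (h2 : a ≤ 17 / 10) {k : ℕ} (hk : 28 ≤ k) :
    ww a (k + 1) ≤ ww a k / 2 := by
  have ha : 0 < a := by linarith
  have h3 := y_succ (by linarith) h2 (show 1 ≤ k by omega)
  have hk' : (28 : ℝ) ≤ k := by exact_mod_cast hk
  have hy := y_pos ha k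
  have hy1 := y_pos ha (k + 1)
  have h4 : y a (k + 1) * 48 ≤ 20 * y a k := by
    refine le_trans ?_ h3
    apply mul_le_mul_of_nonneg_left _ hy1.le
    nlinarith
  unfold ww
  push_cast
  rw [pow_succ ((101 : ℝ) / 100) k]
  have h5 : ((k : ℝ) + 1 + 1) ^ 2 * 29 ^ 2 ≤ ((k : ℝ) + 1) ^ 2 * 30 ^ 2 := by
    rw [← mul_pow, ← mul_pow]
    apply pow_le_pow_left₀ (by positivity)
    linarith
  have h6 : y a (k + 1) ≤ 20 / 48 * y a k := by linarith
  have p : (0 : ℝ) < (101 / 100) ^ k := by positivity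
  calc ((k : ℝ) + 1 + 1) ^ 2 * (y a (k + 1) * ((101 / 100) ^ k * (101 / 100)))
      ≤ (((k : ℝ) + 1) ^ 2 * 30 ^ 2 / 29 ^ 2) *
          ((20 / 48 * y a k) * ((101 / 100) ^ k * (101 / 100))) := by
        apply mul_le_mul _ _ (by positivity) (by positivity)
        · rw [le_div_iff₀ (by positivity)]
          exact h5
        · gcongr
    _ = (((k : ℝ) + 1) ^ 2 * (y a k * (101 / 100) ^ k)) *
          (30 ^ 2 / 29 ^ 2 * (20 / 48) * (101 / 100)) := by ring
    _ ≤ (((k : ℝ) + 1) ^ 2 * (y a k * (101 / 100) ^ k)) * (1 / 2) := by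
        apply mul_le_mul_of_nonneg_left _ (by positivity)
        norm_num
    _ = _ := by ring

theorem ww_tail {a : ℝ} (h1 : 168 / 100 ≤ a) (h2 : a ≤ 17 / 10) (j : ℕ) :
    ww a (28 + j) ≤ ww a 28 * (1 / 2) ^ j := by
  induction j with
  | zero => simp
  | succ j ih =>
    have := ww_succ h1 h2 (show 28 ≤ 28 + j by omega)
    rw [← add_assoc, pow_succ]
    linarith

/-- the uniform bound of the weighted terms -/
def Mk (k : ℕ) : ℝ := 2 ^ 45 * (1 / 2) ^ k

theorem Mk_summable : Summable Mk :=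
  (summable_geometric_of_lt_one (by norm_num) (by norm_num)).mul_left _

theorem ww_le {a : ℝ} (h1 : 168 / 100 ≤ a) (h2 : a ≤ 17 / 10) (hy : ∀ k ≤ 28, y a k ≤ 60)
    (k : ℕ) : ww a k ≤ Mk k := by
  have ha : 0 < a := by linarith
  have key : ∀ k ≤ 28, ww a k ≤ 2 ^ 17 := by
    intro k hk
    unfold ww
    have hk' : (k : ℝ) ≤ 28 := by exact_mod_cast hk
    have h3 : ((k : ℝ) + 1) ^ 2 ≤ 29 ^ 2 := by
      apply pow_le_pow_left₀ (by positivity)
      linarith
    have h4 : ((101 : ℝ) / 100) ^ k ≤ (101 / 100) ^ 28 :=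
      pow_le_pow_right₀ (by norm_num) hk
    have h5 := hy k hk
    have h6 := y_pos ha k
    calc ((k : ℝ) + 1) ^ 2 * (y a k * (101 / 100) ^ k) ≤ 29 ^ 2 * (60 * (101 / 100) ^ 28) := by
          gcongr
      _ ≤ 2 ^ 17 := by norm_num
  by_cases hk : k ≤ 28
  · refine (key k hk).trans ?_
    unfold Mk
    have h3 : (1 / 2 : ℝ) ^ 28 ≤ (1 / 2) ^ k :=
      pow_le_pow_of_le_one (by norm_num) (by norm_num) hk
    calc (2 : ℝ) ^ 17 = 2 ^ 45 * (1 / 2) ^ 28 := by norm_num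
      _ ≤ _ := by gcongr
  · push Not at hk
    obtain ⟨j, rfl⟩ : ∃ j, k = 28 + j := ⟨k - 28, by omega⟩
    refine (ww_tail h1 h2 j).trans ?_
    unfold Mk
    rw [pow_add]
    calc ww a 28 * (1 / 2) ^ j ≤ 2 ^ 17 * (1 / 2) ^ j := by
          have := key 28 le_rfl
          gcongr
      _ = _ := by ring

/-- the domain of the parameters -/
structure Dom (a u : ℝ) : Prop where
  h1 : 168 / 100 ≤ a
  h2 : a ≤ 17 / 10
  hy : ∀ k ≤ 28, y a k ≤ 60
  hu : |u| < 9 / 1000

theorem exp_le_of_small {u : ℝ} (hu : |u| < 9 / 1000) : Real.exp u ≤ 101 / 100 := by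
  have h1 := Real.add_one_le_exp (-u)
  have h2 : u < 9 / 1000 := (abs_lt.1 hu).2
  have h3 : 0 < -u + 1 := by linarith
  have h4 : Real.exp u * Real.exp (-u) = 1 := by rw [← Real.exp_add]; simp
  have h5 := Real.exp_pos u
  nlinarith

theorem term_le {a u : ℝ} (h : Dom a u) {w : ℕ → ℂ} (hw : ∀ k, ‖w k‖ ≤ ((k : ℝ) + 1) ^ 2)
    (k : ℕ) : ‖w k * ee a u k‖ ≤ ww a k := by
  have ha : 0 < a := by linarith [h.h1]
  rw [norm_mul, norm_ee ha]
  unfold ww
  have h3 := exp_le_of_small h.hu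
  have h4 := y_pos ha k
  apply mul_le_mul (hw k) _ (by positivity) (by positivity)
  apply mul_le_mul_of_nonneg_left _ h4.le
  exact pow_le_pow_left₀ (Real.exp_pos _).le h3 k

theorem term_summable {a u : ℝ} (h : Dom a u) {w : ℕ → ℂ}
    (hw : ∀ k, ‖w k‖ ≤ ((k : ℝ) + 1) ^ 2) : Summable fun k => w k * ee a u k :=
  Summable.of_norm_bounded Mk_summable fun k =>
    (term_le h hw k).trans (ww_le h.h1 h.h2 h.hy k)

/-- truncation of the series -/
theorem trunc {a u : ℝ} (h : Dom a u) {w : ℕ → ℂ} (hw : ∀ k, ‖w k‖ ≤ ((k : ℝ) + 1) ^ 2) :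
    ‖∑' k, w k * ee a u k - ∑ k ∈ Finset.range 28, w k * ee a u k‖ ≤ 2 * ww a 28 := by
  have hs := term_summable h hw
  rw [← hs.sum_add_tsum_nat_add 28, add_sub_cancel_left]
  have hb : ∀ j, ‖w (j + 28) * ee a u (j + 28)‖ ≤ ww a 28 * (1 / 2) ^ j := by
    intro j
    rw [add_comm j 28]
    exact (term_le h hw (28 + j)).trans (ww_tail h.h1 h.h2 j)
  have hg : HasSum (fun j : ℕ => ww a 28 * (1 / 2 : ℝ) ^ j) (2 * ww a 28) := by
    have := hasSum_geometric_two.mul_left (ww a 28)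
    rw [mul_comm (ww a 28) 2] at this
    exact this
  exact tsum_of_norm_bounded hg hb

/-- derivatives of the series -/
theorem hasDeriv {a u : ℝ} (h : Dom a u) {w : ℕ → ℂ} (hw : ∀ k, ‖w k‖ ≤ (k : ℝ) + 1) :
    HasDerivAt (fun u : ℝ => ∑' k, w k * ee a u k) (∑' k, (k * w k) * ee a u k) u := by
  have hw1 : ∀ k, ‖w k‖ ≤ ((k : ℝ) + 1) ^ 2 := by
    intro k
    refine (hw k).trans ?_
    have : (0 : ℝ) ≤ k := by positivity
    nlinarith
  have hw2 : ∀ k : ℕ, ‖(k : ℂ) * w k‖ ≤ ((k : ℝ) + 1) ^ 2 := by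
    intro k
    rw [norm_mul, Complex.norm_natCast, sq]
    apply mul_le_mul _ (hw k) (norm_nonneg _) (by positivity)
    linarith
  have hD : ∀ x : ℝ, x ∈ Ioo (-(9 / 1000) : ℝ) (9 / 1000) → Dom a x := fun x hx =>
    ⟨h.h1, h.h2, h.hy, abs_lt.2 ⟨hx.1, hx.2⟩⟩
  have hu : u ∈ Ioo (-(9 / 1000) : ℝ) (9 / 1000) := abs_lt.1 h.hu
  apply hasDerivAt_tsum_of_isPreconnected Mk_summable isOpen_Ioo isPreconnected_Ioo
    (y₀ := u) (g := fun k (u : ℝ) => w k * ee a u k)
    (g' := fun k (u : ℝ) => (k * w k) * ee a u k)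
  · intro k x _
    unfold ee vv
    have h1 : HasDerivAt (fun x : ℝ => ((x : ℂ) - π * a / 2 * Complex.I)) 1 x := by
      have := (Complex.ofRealCLM.hasDerivAt (x := x)).sub_const (π * a / 2 * Complex.I : ℂ)
      simpa using this
    have h2 := ((h1.cexp.pow k).const_mul (y a k : ℂ)).const_mul (w k)
    refine h2.congr_deriv ?_
    cases k with
    | zero => simp
    | succ k =>
      rw [pow_succ]
      push_cast
      ring
  · intro k x hx
    exact (term_le (hD x hx) hw2 k).trans (ww_le h.h1 h.h2 h.hy k)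
  · exact hu
  · exact term_summable h hw1
  · exact hu

/-- continuity of the series in both parameters -/
theorem cont {s : Set (ℝ × ℝ)} (hs : ∀ p ∈ s, Dom p.1 p.2) {w : ℝ → ℕ → ℂ}
    (hw : ∀ a k, 1 ≤ a → ‖w a k‖ ≤ ((k : ℝ) + 1) ^ 2)
    (hc : ∀ k, ContinuousOn (fun p : ℝ × ℝ => w p.1 k) s) :
    ContinuousOn (fun p : ℝ × ℝ => ∑' k, w p.1 k * ee p.1 p.2 k) s := by
  apply continuousOn_tsum _ Mk_summable
  · intro k p hp
    have hd := hs p hp
    exact (term_le hd (fun k => hw p.1 k (by linarith [hd.h1])) k).trans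
      (ww_le hd.h1 hd.h2 hd.hy k)
  · intro k
    apply (hc k).mul
    unfold ee
    apply ContinuousOn.mul
    · apply Complex.continuous_ofReal.comp_continuousOn
      unfold y
      apply ContinuousOn.div continuousOn_const
      · unfold G
        intro p hp
        have hd := hs p hp
        have hpos : 0 < p.1 * k + 1 := arg_pos (by linarith [hd.h1]) k
        have c1 : ContinuousAt (fun p : ℝ × ℝ => p.1 * k + 1) p := by fun_prop
        have c2 : ContinuousAt Real.Gamma (p.1 * k + 1) := by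
          apply (Real.differentiableAt_Gamma _).continuousAt
          intro m hm
          have : (0 : ℝ) ≤ m := by positivity
          linarith
        have c3 : ContinuousAt (fun x : ℝ => ((1 : ℝ) / 90) ^ x) (p.1 * k + 1) :=
          Real.continuousAt_const_rpow (by norm_num)
        have c4 : ContinuousAt (fun p : ℝ × ℝ => ((1 : ℝ) / 90) ^ (p.1 * k + 1)) p :=
          ContinuousAt.comp (f := fun p : ℝ × ℝ => p.1 * k + 1) c3 c1
        have c5 : ContinuousAt (fun p : ℝ × ℝ => Real.Gamma (p.1 * k + 1)) p :=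
          ContinuousAt.comp (f := fun p : ℝ × ℝ => p.1 * k + 1) c2 c1
        exact (continuousAt_const.mul (c4.mul c5)).continuousWithinAt
      · intro p hp
        have hd := hs p hp
        exact (G_pos (arg_pos (by linarith [hd.h1]) k)).ne'
    · unfold vv
      fun_prop

end

end Pool.Agent.H30ML
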