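import Pool.Agent.H30ML.Chain
import Pool.Agent.H30ML.Series

/-!
The base of the powers.
-/

set_option autoImplicit false

namespace Pool.Agent.H30ML

noncomputable section

open Complex Real Pool.Agent.H30KAM

/-- the Taylor polynomial of the cosine -/
def Cp (x : ℝ) : ℝ :=
  1 - x ^ 2 / 2 + x ^ 4 / 24 - x ^ 6 / 720 + x ^ 8 / 40320 - x ^ 10 / 3628800 + x ^ 12 /
  479001600 - x ^ 14 / 87178291200 + x ^ 16 / 20922789888000 - x ^ 18 / 6402373705728000 + x ^ 20
  / 2432902008176640000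

/-- the Taylor polynomial of the sine -/
def Sp (x : ℝ) : ℝ :=
  x - x ^ 3 / 6 + x ^ 5 / 120 - x ^ 7 / 5040 + x ^ 9 / 362880 - x ^ 11 / 39916800 + x ^ 13 /
  6227020800 - x ^ 15 / 1307674368000 + x ^ 17 / 355687428096000 - x ^ 19 / 121645100408832000

theorem taylor_eq (x : ℝ) : ∑ m ∈ Finset.range 21, (I * (x : ℂ)) ^ m / (m.factorial : ℂ) =
    (Cp x : ℂ) + (Sp x : ℂ) * I := by
  have i2 : (I : ℂ) ^ 2 = -1 := I_sq
  have i3 : (I : ℂ) ^ 3 = -I := by rw [pow_succ, i2]; ring
  have i4 : (I : ℂ) ^ 4 = 1 := by rw [pow_succ, i3]; linear_combination -i2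
  have i5 : (I : ℂ) ^ 5 = I := by rw [pow_succ, i4]; ring
  have i6 : (I : ℂ) ^ 6 = -1 := by rw [pow_succ, i5]; linear_combination i2
  have i7 : (I : ℂ) ^ 7 = -I := by rw [pow_succ, i6]; ring
  have i8 : (I : ℂ) ^ 8 = 1 := by rw [pow_succ, i7]; linear_combination -i2
  have i9 : (I : ℂ) ^ 9 = I := by rw [pow_succ, i8]; ring
  have i10 : (I : ℂ) ^ 10 = -1 := by rw [pow_succ, i9]; linear_combination i2
  have i11 : (I : ℂ) ^ 11 = -I := by rw [pow_succ, i10]; ring
  have i12 : (I : ℂ) ^ 12 = 1 := by rw [pow_succ, i11]; linear_combination -i2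
  have i13 : (I : ℂ) ^ 13 = I := by rw [pow_succ, i12]; ring
  have i14 : (I : ℂ) ^ 14 = -1 := by rw [pow_succ, i13]; linear_combination i2
  have i15 : (I : ℂ) ^ 15 = -I := by rw [pow_succ, i14]; ring
  have i16 : (I : ℂ) ^ 16 = 1 := by rw [pow_succ, i15]; linear_combination -i2
  have i17 : (I : ℂ) ^ 17 = I := by rw [pow_succ, i16]; ring
  have i18 : (I : ℂ) ^ 18 = -1 := by rw [pow_succ, i17]; linear_combination i2
  have i19 : (I : ℂ) ^ 19 = -I := by rw [pow_succ, i18]; ring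
  have i20 : (I : ℂ) ^ 20 = 1 := by rw [pow_succ, i19]; linear_combination -i2
  simp only [Finset.sum_range_succ, Finset.sum_range_zero, mul_pow, i2, i3, i4, i5, i6, i7, i8, i9,
    i10, i11, i12, i13, i14, i15, i16, i17, i18, i19, i20, Cp, Sp, pow_zero, pow_one,
    Nat.factorial]
  push_cast
  ring

theorem exp_close {c x : ℝ} {e : ℝ} (h : |π * c - x| ≤ e) (hx0 : 0 ≤ x) (hx : x ≤ 1 / 2) :
    ‖Complex.exp (I * ((π * c : ℝ) : ℂ)) - ((Cp x : ℂ) + (Sp x : ℂ) * I)‖ ≤ e + 1e-25 := by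
  have h1 : ‖Complex.exp (I * ((π * c : ℝ) : ℂ)) - Complex.exp (I * (x : ℂ))‖ ≤ e := by
    have e2 : Complex.exp (I * ((π * c : ℝ) : ℂ)) - Complex.exp (I * (x : ℂ)) =
        Complex.exp (I * (x : ℂ)) * (Complex.exp (I * ((π * c - x : ℝ) : ℂ)) - 1) := by
      rw [mul_sub, ← Complex.exp_add, mul_one]
      congr 2
      push_cast
      ring
    rw [e2, norm_mul]
    have e3 : ‖Complex.exp (I * (x : ℂ))‖ = 1 := by
      rw [mul_comm]
      exact Complex.norm_exp_ofReal_mul_I _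
    rw [e3, one_mul]
    exact (Real.norm_exp_I_mul_ofReal_sub_one_le).trans (by rw [Real.norm_eq_abs]; exact h)
  have h2 : ‖Complex.exp (I * (x : ℂ)) - ((Cp x : ℂ) + (Sp x : ℂ) * I)‖ ≤ 1e-25 := by
    rw [← taylor_eq]
    have hn : ‖I * (x : ℂ)‖ = x := by
      rw [norm_mul, Complex.norm_I, one_mul, Complex.norm_real, Real.norm_eq_abs,
        abs_of_nonneg hx0]
    refine (Complex.exp_bound (x := I * (x : ℂ)) (by rw [hn]; linarith) (n := 21)
      (by norm_num)).trans ?_
    rw [hn]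
    have h3 : x ^ 21 ≤ (1 / 2) ^ 21 := pow_le_pow_left₀ hx0 hx 21
    refine (mul_le_mul_of_nonneg_right h3 (by positivity)).trans ?_
    simp only [Nat.factorial]
    norm_num
  calc ‖Complex.exp (I * ((π * c : ℝ) : ℂ)) - ((Cp x : ℂ) + (Sp x : ℂ) * I)‖
      = ‖(Complex.exp (I * ((π * c : ℝ) : ℂ)) - Complex.exp (I * (x : ℂ))) +
        (Complex.exp (I * (x : ℂ)) - ((Cp x : ℂ) + (Sp x : ℂ) * I))‖ := by
        congr 1
        ring
    _ ≤ e + 1e-25 := (norm_add_le _ _).trans (add_le_add h1 h2)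

/-- the left end of the parameter interval -/
def a1 : ℝ := 1684309362685659 / 10 ^ 15

/-- the right end of the parameter interval -/
def a2 : ℝ := 1684309362685679 / 10 ^ 15

/-- the approximate base -/
def qa : ℤ × ℤ := (-1114959084014215911542353351484, -603161906318005878854074731025)

theorem anga : |π * (1 - a1 / 2) - 495885693496906770235316993 / 10 ^ 27| ≤ 1.6e-21 := by
  have h1 := Real.pi_gt_d20
  have h2 := Real.pi_lt_d20
  unfold a1
  rw [abs_le]
  constructor
  · norm_num at h1 h2 ⊢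
    linarith
  · norm_num at h1 h2 ⊢
    linarith

theorem cpa : |Cp (495885693496906770235316993 / 10 ^ 27) + -1114959084014215911542353351484 / 2 ^ 100| ≤ 1e-25 := by
  unfold Cp
  rw [abs_le]
  constructor <;> norm_num

theorem spa : |Sp (495885693496906770235316993 / 10 ^ 27) + -603161906318005878854074731025 / 2 ^ 100| ≤ 1e-25 := by
  unfold Sp
  rw [abs_le]
  constructor <;> norm_num

theorem closea : ‖vv a1 0 - gc qa / ((2 ^ 100 : ℝ) : ℂ)‖ ≤ 1.7e-21 := by
  have h1 := exp_close anga (by norm_num) (by norm_num)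
  have e1 : vv a1 0 = -Complex.exp (I * ((π * (1 - a1 / 2) : ℝ) : ℂ)) := by
    unfold vv
    have e2 : (((0 : ℝ) : ℂ) - π * a1 / 2 * I) =
        I * ((π * (1 - a1 / 2) : ℝ) : ℂ) - π * I := by
      push_cast
      ring
    rw [e2, Complex.exp_sub, Complex.exp_pi_mul_I]
    ring
  have h2 : ‖((Cp (495885693496906770235316993 / 10 ^ 27) : ℝ) : ℂ) + ((Sp (495885693496906770235316993 / 10 ^ 27) : ℝ) : ℂ) * I +
      gc qa / ((2 ^ 100 : ℝ) : ℂ)‖ ≤ 2e-25 := by
    have e4 : ((Cp (495885693496906770235316993 / 10 ^ 27) : ℝ) : ℂ) + ((Sp (495885693496906770235316993 / 10 ^ 27) : ℝ) : ℂ) * I +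
        gc qa / ((2 ^ 100 : ℝ) : ℂ) =
        ((Cp (495885693496906770235316993 / 10 ^ 27) + -1114959084014215911542353351484 / 2 ^ 100 : ℝ) : ℂ) +
          ((Sp (495885693496906770235316993 / 10 ^ 27) + -603161906318005878854074731025 / 2 ^ 100 : ℝ) : ℂ) * I := by
      unfold gc qa
      push_cast
      ring
    rw [e4]
    refine (norm_re_im _ _).trans ?_
    have := cpa
    have := spa
    linarith
  rw [e1]
  calc _ = ‖-((Complex.exp (I * ((π * (1 - a1 / 2) : ℝ) : ℂ)) -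
        (((Cp (495885693496906770235316993 / 10 ^ 27) : ℝ) : ℂ) + ((Sp (495885693496906770235316993 / 10 ^ 27) : ℝ) : ℂ) * I)) +
        (((Cp (495885693496906770235316993 / 10 ^ 27) : ℝ) : ℂ) + ((Sp (495885693496906770235316993 / 10 ^ 27) : ℝ) : ℂ) * I +
          gc qa / ((2 ^ 100 : ℝ) : ℂ)))‖ := by
        congr 1
        ring
    _ ≤ (1.6e-21 + 1e-25) + 2e-25 := by
        rw [norm_neg]
        exact (norm_add_le _ _).trans (add_le_add h1 h2)
    _ ≤ _ := by norm_num

theorem qa_norm : ‖gc qa / ((2 ^ 100 : ℝ) : ℂ)‖ ≤ 1 := by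
  rw [norm_div, Complex.norm_real, Real.norm_eq_abs, abs_of_pos (by positivity),
    div_le_one (by positivity), Complex.norm_eq_sqrt_sq_add_sq]
  apply Real.sqrt_le_iff.2
  refine ⟨by positivity, ?_⟩
  unfold gc qa
  simp only [Complex.add_re, Complex.intCast_re, Complex.mul_re, Complex.I_re, mul_zero,
    Complex.intCast_im, Complex.I_im, mul_one, sub_self, add_zero, Complex.add_im, Complex.mul_im,
    zero_add]
  norm_num

/-- the approximate base -/
def qb : ℤ × ℤ := (-1114959084014234860432491489557, -603161906317970851381400808070)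

theorem angb : |π * (1 - a2 / 2) - 495885693496875354308781095 / 10 ^ 27| ≤ 1.6e-21 := by
  have h1 := Real.pi_gt_d20
  have h2 := Real.pi_lt_d20
  unfold a2
  rw [abs_le]
  constructor
  · norm_num at h1 h2 ⊢
    linarith
  · norm_num at h1 h2 ⊢
    linarith

theorem cpb : |Cp (495885693496875354308781095 / 10 ^ 27) + -1114959084014234860432491489557 / 2 ^ 100| ≤ 1e-25 := by
  unfold Cp
  rw [abs_le]
  constructor <;> norm_num

theorem spb : |Sp (495885693496875354308781095 / 10 ^ 27) + -603161906317970851381400808070 / 2 ^ 100| ≤ 1e-25 := by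
  unfold Sp
  rw [abs_le]
  constructor <;> norm_num

theorem closeb : ‖vv a2 0 - gc qb / ((2 ^ 100 : ℝ) : ℂ)‖ ≤ 1.7e-21 := by
  have h1 := exp_close angb (by norm_num) (by norm_num)
  have e1 : vv a2 0 = -Complex.exp (I * ((π * (1 - a2 / 2) : ℝ) : ℂ)) := by
    unfold vv
    have e2 : (((0 : ℝ) : ℂ) - π * a2 / 2 * I) =
        I * ((π * (1 - a2 / 2) : ℝ) : ℂ) - π * I := by
      push_cast
      ring
    rw [e2, Complex.exp_sub, Complex.exp_pi_mul_I]
    ring
  have h2 : ‖((Cp (495885693496875354308781095 / 10 ^ 27) : ℝ) : ℂ) + ((Sp (495885693496875354308781095 / 10 ^ 27) : ℝ) : ℂ) * I +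
      gc qb / ((2 ^ 100 : ℝ) : ℂ)‖ ≤ 2e-25 := by
    have e4 : ((Cp (495885693496875354308781095 / 10 ^ 27) : ℝ) : ℂ) + ((Sp (495885693496875354308781095 / 10 ^ 27) : ℝ) : ℂ) * I +
        gc qb / ((2 ^ 100 : ℝ) : ℂ) =
        ((Cp (495885693496875354308781095 / 10 ^ 27) + -1114959084014234860432491489557 / 2 ^ 100 : ℝ) : ℂ) +
          ((Sp (495885693496875354308781095 / 10 ^ 27) + -603161906317970851381400808070 / 2 ^ 100 : ℝ) : ℂ) * I := by
      unfold gc qb
      push_cast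
      ring
    rw [e4]
    refine (norm_re_im _ _).trans ?_
    have := cpb
    have := spb
    linarith
  rw [e1]
  calc _ = ‖-((Complex.exp (I * ((π * (1 - a2 / 2) : ℝ) : ℂ)) -
        (((Cp (495885693496875354308781095 / 10 ^ 27) : ℝ) : ℂ) + ((Sp (495885693496875354308781095 / 10 ^ 27) : ℝ) : ℂ) * I)) +
        (((Cp (495885693496875354308781095 / 10 ^ 27) : ℝ) : ℂ) + ((Sp (495885693496875354308781095 / 10 ^ 27) : ℝ) : ℂ) * I +
          gc qb / ((2 ^ 100 : ℝ) : ℂ)))‖ := by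
        congr 1
        ring
    _ ≤ (1.6e-21 + 1e-25) + 2e-25 := by
        rw [norm_neg]
        exact (norm_add_le _ _).trans (add_le_add h1 h2)
    _ ≤ _ := by norm_num

theorem qb_norm : ‖gc qb / ((2 ^ 100 : ℝ) : ℂ)‖ ≤ 1 := by
  rw [norm_div, Complex.norm_real, Real.norm_eq_abs, abs_of_pos (by positivity),
    div_le_one (by positivity), Complex.norm_eq_sqrt_sq_add_sq]
  apply Real.sqrt_le_iff.2
  refine ⟨by positivity, ?_⟩
  unfold gc qb
  simp only [Complex.add_re, Complex.intCast_re, Complex.mul_re, Complex.I_re, mul_zero,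
    Complex.intCast_im, Complex.I_im, mul_one, sub_self, add_zero, Complex.add_im, Complex.mul_im,
    zero_add]
  norm_num

end

end Pool.Agent.H30ML
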