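import Pool.Agent.H30KAM.Rot

/-!
Powers of a number of absolute value one.
-/

set_option autoImplicit false

namespace Pool.Agent.H30ML

noncomputable section

open Complex Real Pool.Agent.H30KAM

theorem chk_step {u : ℂ} {q : ℤ × ℤ} {η₁ η : ℝ} (hη : η₁ + 2 / 2 ^ 100 ≤ η) (hu : ‖u‖ = 1)
    (hq : ‖u - gc q / ((2 ^ 100 : ℝ) : ℂ)‖ ≤ η₁) (hn : ‖gc q / ((2 ^ 100 : ℝ) : ℂ)‖ ≤ 1) {n : ℕ} {a b : ℤ × ℤ} (ha : ‖u ^ n - gc a / ((2 ^ 100 : ℝ) : ℂ)‖ ≤ η * n)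
    (h1 : (2 ^ 100 * b.1 - (gmul a q).1).natAbs ≤ 2 ^ 100)
    (h2 : (2 ^ 100 * b.2 - (gmul a q).2).natAbs ≤ 2 ^ 100) :
    ‖u ^ (n + 1) - gc b / ((2 ^ 100 : ℝ) : ℂ)‖ ≤ η * (n + 1 : ℕ) := by
  have h3 := chk_one h1
  have h4 := chk_one h2
  have h5 : ‖gc a / ((2 ^ 100 : ℝ) : ℂ) * (gc q / ((2 ^ 100 : ℝ) : ℂ)) -
      gc b / ((2 ^ 100 : ℝ) : ℂ)‖ ≤ 2 / 2 ^ 100 := by
    have e : gc a / ((2 ^ 100 : ℝ) : ℂ) * (gc q / ((2 ^ 100 : ℝ) : ℂ)) -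
      gc b / ((2 ^ 100 : ℝ) : ℂ) =
        ((((gmul a q).1 : ℝ) / (2 ^ 100) ^ 2 - b.1 / 2 ^ 100 : ℝ) : ℂ) +
        ((((gmul a q).2 : ℝ) / (2 ^ 100) ^ 2 - b.2 / 2 ^ 100 : ℝ) : ℂ) * I := by
      have e1 : gc a / ((2 ^ 100 : ℝ) : ℂ) * (gc q / ((2 ^ 100 : ℝ) : ℂ)) =
          gc (gmul a q) / ((2 ^ 100 : ℝ) : ℂ) ^ 2 := by
        rw [gc_mul]
        ring
      rw [e1]
      unfold gc
      push_cast
      ring
    rw [e]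
    refine (norm_re_im _ _).trans ?_
    refine (add_le_add h3 h4).trans (le_of_eq ?_)
    ring
  have e : u ^ (n + 1) - gc b / ((2 ^ 100 : ℝ) : ℂ) =
      u ^ n * (u - gc q / ((2 ^ 100 : ℝ) : ℂ)) +
      (u ^ n - gc a / ((2 ^ 100 : ℝ) : ℂ)) * (gc q / ((2 ^ 100 : ℝ) : ℂ)) +
      (gc a / ((2 ^ 100 : ℝ) : ℂ) * (gc q / ((2 ^ 100 : ℝ) : ℂ)) -
        gc b / ((2 ^ 100 : ℝ) : ℂ)) := by
    ring
  rw [e]
  have h6 : ‖u ^ n * (u - gc q / ((2 ^ 100 : ℝ) : ℂ))‖ ≤ η₁ := by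
    rw [norm_mul, norm_pow, hu, one_pow, one_mul]
    exact hq
  have h7 : ‖(u ^ n - gc a / ((2 ^ 100 : ℝ) : ℂ)) * (gc q / ((2 ^ 100 : ℝ) : ℂ))‖ ≤ η * n := by
    rw [norm_mul]
    calc _ ≤ ‖u ^ n - gc a / ((2 ^ 100 : ℝ) : ℂ)‖ * 1 :=
          mul_le_mul_of_nonneg_left hn (norm_nonneg _)
      _ ≤ _ := by rw [mul_one]; exact ha
  refine (norm_add_le _ _).trans ((add_le_add ((norm_add_le _ _).trans (add_le_add h6 h7))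
    h5).trans ?_)
  push_cast
  linarith

theorem chk_spec {u : ℂ} {q : ℤ × ℤ} {η₁ η : ℝ} (hη : η₁ + 2 / 2 ^ 100 ≤ η) (hu : ‖u‖ = 1)
    (hq : ‖u - gc q / ((2 ^ 100 : ℝ) : ℂ)‖ ≤ η₁) (hn : ‖gc q / ((2 ^ 100 : ℝ) : ℂ)‖ ≤ 1)
    (t : List (ℤ × ℤ)) (a : ℤ × ℤ) (n : ℕ)
    (ha : ‖u ^ n - gc a / ((2 ^ 100 : ℝ) : ℂ)‖ ≤ η * n) (h : chk q a t = true) :
    ∀ j < (a :: t).length, ‖u ^ (n + j) - gc ((a :: t).getD j (0, 0)) / ((2 ^ 100 : ℝ) : ℂ)‖ ≤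
      η * (n + j : ℕ) := by
  induction t generalizing a n with
  | nil =>
    intro j hj
    have : j = 0 := by
      simp only [List.length_cons, List.length_nil] at hj
      omega
    subst this
    simpa using ha
  | cons b t ih =>
    intro j hj
    simp only [chk, Bool.and_eq_true, Nat.ble_eq] at h
    obtain ⟨h1, h2, h3⟩ := h
    cases j with
    | zero => simpa using ha
    | succ j =>
      have h4 := ih b (n + 1) (chk_step hη hu hq hn ha h1 h2) h3 j (by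
        simp only [List.length_cons] at hj ⊢
        omega)
      have e : n + (j + 1) = n + 1 + j := by ring
      rw [e]
      simpa using h4

end

end Pool.Agent.H30ML
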