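import Mathlib

/-!
Existence of a zero of a map of two real variables.
-/

set_option autoImplicit false

namespace Pool.Agent.H30ML

noncomputable section

open Set

/-- A continuous map on a rectangle that is close to affine in the second variable and whose
components have the right signs has a zero. -/
theorem exists_zero {a1 a2 ρ κ : ℝ} {D : ℂ} {F : ℝ → ℝ → ℂ} (h12 : a1 ≤ a2) (hρ : 0 < ρ)
    (hκ0 : 0 ≤ κ) (hκ : κ < ‖D‖)
    (hc : ContinuousOn (fun p : ℝ × ℝ => F p.1 p.2) (Icc a1 a2 ×ˢ Icc (-ρ) ρ))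
    (hL : ∀ a ∈ Icc a1 a2, ∀ u ∈ Icc (-ρ) ρ, ∀ u' ∈ Icc (-ρ) ρ,
      ‖F a u - F a u' - D * ((u - u' : ℝ) : ℂ)‖ ≤ κ * |u - u'|)
    (h0 : ∀ a ∈ Icc a1 a2, ‖F a 0‖ < (‖D‖ - κ) * ρ)
    (hI1 : κ * |((starRingEnd ℂ) D * F a1 0).re| <
      (‖D‖ - κ) * ((starRingEnd ℂ) D * F a1 0).im)
    (hI2 : κ * |((starRingEnd ℂ) D * F a2 0).re| <
      (‖D‖ - κ) * -((starRingEnd ℂ) D * F a2 0).im) :
    ∃ a ∈ Icc a1 a2, ∃ u ∈ Icc (-ρ) ρ, F a u = 0 := by
  set d : ℝ := ‖D‖ with hd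
  have hd0 : 0 < d := lt_of_le_of_lt hκ0 hκ
  have hdκ : 0 < d - κ := by linarith
  -- the rotated function
  set R : ℝ → ℝ → ℝ := fun a u => ((starRingEnd ℂ) D * F a u).re with hR
  set J : ℝ → ℝ → ℝ := fun a u => ((starRingEnd ℂ) D * F a u).im with hJ
  have hDD : (starRingEnd ℂ) D * D = ((d ^ 2 : ℝ) : ℂ) := by
    rw [mul_comm, Complex.mul_conj, Complex.normSq_eq_norm_sq]
  have hz0 : (0 : ℝ) ∈ Icc (-ρ) ρ := ⟨by linarith, hρ.le⟩
  have key : ∀ a ∈ Icc a1 a2, ∀ u ∈ Icc (-ρ) ρ, ∀ u' ∈ Icc (-ρ) ρ,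
      |R a u - R a u' - d ^ 2 * (u - u')| ≤ d * κ * |u - u'| ∧
      |J a u - J a u'| ≤ d * κ * |u - u'| := by
    intro a ha u hu u' hu'
    have h1 := hL a ha u hu u' hu'
    set X : ℂ := (starRingEnd ℂ) D * (F a u - F a u' - D * ((u - u' : ℝ) : ℂ)) with hX
    have h2 : ‖X‖ ≤ d * κ * |u - u'| := by
      rw [hX, norm_mul, RCLike.norm_conj]
      calc ‖D‖ * ‖F a u - F a u' - D * ((u - u' : ℝ) : ℂ)‖ ≤ ‖D‖ * (κ * |u - u'|) :=
            mul_le_mul_of_nonneg_left h1 (norm_nonneg _)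
        _ = _ := by rw [hd]; ring
    have e : X = (starRingEnd ℂ) D * F a u - (starRingEnd ℂ) D * F a u' -
        ((d ^ 2 * (u - u') : ℝ) : ℂ) := by
      rw [hX]
      push_cast
      have := hDD
      push_cast at this
      rw [← this]
      ring
    constructor
    · have h3 : R a u - R a u' - d ^ 2 * (u - u') = X.re := by
        rw [e, Complex.sub_re, Complex.sub_re, Complex.ofReal_re]
      rw [h3]
      exact (Complex.abs_re_le_norm X).trans h2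
    · have h3 : J a u - J a u' = X.im := by
        rw [e, Complex.sub_im, Complex.sub_im, Complex.ofReal_im, sub_zero]
      rw [h3]
      exact (Complex.abs_im_le_norm X).trans h2
  have hRc : ContinuousOn (fun p : ℝ × ℝ => R p.1 p.2) (Icc a1 a2 ×ˢ Icc (-ρ) ρ) :=
    Complex.continuous_re.comp_continuousOn (continuousOn_const.mul hc)
  have hJc : ContinuousOn (fun p : ℝ × ℝ => J p.1 p.2) (Icc a1 a2 ×ˢ Icc (-ρ) ρ) :=
    Complex.continuous_im.comp_continuousOn (continuousOn_const.mul hc)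
  -- size of R at zero
  have hR0 : ∀ a ∈ Icc a1 a2, |R a 0| < d * ((d - κ) * ρ) := by
    intro a ha
    calc |R a 0| ≤ ‖(starRingEnd ℂ) D * F a 0‖ := Complex.abs_re_le_norm _
      _ = d * ‖F a 0‖ := by rw [norm_mul, RCLike.norm_conj]
      _ < _ := mul_lt_mul_of_pos_left (h0 a ha) hd0
  -- existence of a zero of R
  have hex : ∀ a ∈ Icc a1 a2, ∃ u ∈ Icc (-ρ) ρ, R a u = 0 := by
    intro a ha
    have hp : ρ ∈ Icc (-ρ) ρ := ⟨by linarith, le_rfl⟩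
    have hm : -ρ ∈ Icc (-ρ) ρ := ⟨le_rfl, by linarith⟩
    have h1 := (key a ha ρ hp 0 hz0).1
    have h2 := (key a ha (-ρ) hm 0 hz0).1
    have h3 := abs_lt.1 (hR0 a ha)
    rw [sub_zero, abs_of_pos hρ, abs_le] at h1
    rw [sub_zero, abs_neg, abs_of_pos hρ, abs_le] at h2
    have hc1 : ContinuousOn (fun u => R a u) (Icc (-ρ) ρ) := by
      apply hRc.comp (f := fun u : ℝ => (a, u)) (by fun_prop)
      intro u hu
      exact ⟨ha, hu⟩
    have hrange := intermediate_value_Icc (show -ρ ≤ ρ by linarith) hc1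
    have hmem : (0 : ℝ) ∈ Icc (R a (-ρ)) (R a ρ) := by
      constructor
      · nlinarith [h2.2, h3.2]
      · nlinarith [h1.1, h3.1]
    obtain ⟨u, hu, hu2⟩ := hrange hmem
    exact ⟨u, hu, hu2⟩
  -- uniqueness
  have huniq : ∀ a ∈ Icc a1 a2, ∀ u ∈ Icc (-ρ) ρ, ∀ u' ∈ Icc (-ρ) ρ, R a u = 0 → R a u' = 0 →
      u = u' := by
    intro a ha u hu u' hu' h1 h2
    have h3 := (key a ha u hu u' hu').1
    rw [h1, h2, sub_zero, zero_sub, abs_neg, abs_mul, abs_of_pos (by positivity)] at h3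
    have h4 : d * (d - κ) * |u - u'| ≤ 0 := by nlinarith
    have h5 : 0 < d * (d - κ) := mul_pos hd0 hdκ
    have h6 : |u - u'| ≤ 0 := by
      by_contra hcon
      push Not at hcon
      have := mul_pos h5 hcon
      linarith
    have h7 := abs_nonpos_iff.1 h6
    linarith
  -- the compact sets
  set K : Set (ℝ × ℝ) := Icc a1 a2 ×ˢ Icc (-ρ) ρ with hK
  have hKc : IsCompact K := isCompact_Icc.prod isCompact_Icc
  have hcl : ∀ (S : Set (ℝ × ℝ)), IsClosed S →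
      IsClosed (Prod.fst '' (K ∩ (fun p : ℝ × ℝ => (R p.1 p.2, J p.1 p.2)) ⁻¹' S)) := by
    intro S hS
    have h1 : IsClosed (K ∩ (fun p : ℝ × ℝ => (R p.1 p.2, J p.1 p.2)) ⁻¹' S) :=
      (hRc.prodMk hJc).preimage_isClosed_of_isClosed hKc.isClosed hS
    have h2 : IsCompact (K ∩ (fun p : ℝ × ℝ => (R p.1 p.2, J p.1 p.2)) ⁻¹' S) :=
      hKc.of_isClosed_subset h1 inter_subset_left
    exact (h2.image continuous_fst).isClosed
  set S1 : Set (ℝ × ℝ) := {q | q.1 = 0 ∧ 0 ≤ q.2} with hS1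
  set S2 : Set (ℝ × ℝ) := {q | q.1 = 0 ∧ q.2 ≤ 0} with hS2
  have hS1c : IsClosed S1 :=
    (isClosed_eq continuous_fst continuous_const).inter
      (isClosed_le continuous_const continuous_snd)
  have hS2c : IsClosed S2 :=
    (isClosed_eq continuous_fst continuous_const).inter
      (isClosed_le continuous_snd continuous_const)
  have hconn : IsPreconnected (Icc a1 a2) := isPreconnected_Icc
  rw [isPreconnected_closed_iff] at hconn
  have hcover : Icc a1 a2 ⊆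
      (Prod.fst '' (K ∩ (fun p : ℝ × ℝ => (R p.1 p.2, J p.1 p.2)) ⁻¹' S1)) ∪
      (Prod.fst '' (K ∩ (fun p : ℝ × ℝ => (R p.1 p.2, J p.1 p.2)) ⁻¹' S2)) := by
    intro a ha
    obtain ⟨u, hu, hu0⟩ := hex a ha
    rcases le_total 0 (J a u) with h | h
    · left
      exact ⟨(a, u), ⟨⟨ha, hu⟩, ⟨hu0, h⟩⟩, rfl⟩
    · right
      exact ⟨(a, u), ⟨⟨ha, hu⟩, ⟨hu0, h⟩⟩, rfl⟩
  -- the sign at the ends
  have hend : ∀ a ∈ Icc a1 a2, ∀ u ∈ Icc (-ρ) ρ, R a u = 0 →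
      (d - κ) * |J a u - J a 0| ≤ κ * |R a 0| := by
    intro a ha u hu h1
    obtain ⟨h2, h3⟩ := key a ha u hu 0 hz0
    rw [h1, sub_zero, zero_sub] at h2
    rw [sub_zero] at h3
    have h4 : d ^ 2 * |u| ≤ |R a 0| + d * κ * |u| := by
      have h5 : d ^ 2 * |u| = |d ^ 2 * u| := by
        rw [abs_mul, abs_of_pos (show (0 : ℝ) < d ^ 2 by positivity)]
      have h6 : d ^ 2 * u = -R a 0 - (-R a 0 - d ^ 2 * u) := by ring
      rw [h5, h6]
      refine (abs_sub _ _).trans ?_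
      rw [abs_neg]
      linarith
    have h7 : d * ((d - κ) * |u|) ≤ |R a 0| := by nlinarith
    calc (d - κ) * |J a u - J a 0| ≤ (d - κ) * (d * κ * |u|) :=
          mul_le_mul_of_nonneg_left h3 hdκ.le
      _ = κ * (d * ((d - κ) * |u|)) := by ring
      _ ≤ _ := mul_le_mul_of_nonneg_left h7 hκ0
  have hm1 : a1 ∈ Icc a1 a2 := ⟨le_rfl, h12⟩
  have hm2 : a2 ∈ Icc a1 a2 := ⟨h12, le_rfl⟩
  have hne1 : (Icc a1 a2 ∩
      (Prod.fst '' (K ∩ (fun p : ℝ × ℝ => (R p.1 p.2, J p.1 p.2)) ⁻¹' S1))).Nonempty := by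
    obtain ⟨u, hu, hu0⟩ := hex a1 hm1
    refine ⟨a1, hm1, (a1, u), ⟨⟨hm1, hu⟩, ⟨hu0, ?_⟩⟩, rfl⟩
    have h1 := hend a1 hm1 u hu hu0
    have h2 : κ * |R a1 0| < (d - κ) * J a1 0 := hI1
    show 0 ≤ J a1 u
    by_contra hcon
    push Not at hcon
    have h3 : J a1 0 ≤ |J a1 u - J a1 0| := by
      rw [abs_sub_comm]
      refine le_trans ?_ (le_abs_self _)
      linarith
    have h4 := mul_le_mul_of_nonneg_left h3 hdκ.le
    linarith
  have hne2 : (Icc a1 a2 ∩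
      (Prod.fst '' (K ∩ (fun p : ℝ × ℝ => (R p.1 p.2, J p.1 p.2)) ⁻¹' S2))).Nonempty := by
    obtain ⟨u, hu, hu0⟩ := hex a2 hm2
    refine ⟨a2, hm2, (a2, u), ⟨⟨hm2, hu⟩, ⟨hu0, ?_⟩⟩, rfl⟩
    have h1 := hend a2 hm2 u hu hu0
    have h2 : κ * |R a2 0| < (d - κ) * -J a2 0 := hI2
    show J a2 u ≤ 0
    by_contra hcon
    push Not at hcon
    have h3 : -J a2 0 ≤ |J a2 u - J a2 0| := by
      refine le_trans ?_ (le_abs_self _)
      linarith
    have h4 := mul_le_mul_of_nonneg_left h3 hdκ.le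
    linarith
  obtain ⟨a, ha, ⟨p, ⟨hpK, hp1, hp2⟩, hpa⟩, ⟨q, ⟨hqK, hq1, hq2⟩, hqa⟩⟩ :=
    hconn _ _ (hcl S1 hS1c) (hcl S2 hS2c) hcover hne1 hne2
  have hpu : p.2 ∈ Icc (-ρ) ρ := hpK.2
  have hqu : q.2 ∈ Icc (-ρ) ρ := hqK.2
  have e1 : R a p.2 = 0 := by rw [← hpa]; exact hp1
  have e2 : R a q.2 = 0 := by rw [← hqa]; exact hq1
  have e3 : p.2 = q.2 := huniq a ha p.2 hpu q.2 hqu e1 e2
  have e4 : 0 ≤ J a p.2 := by rw [← hpa]; exact hp2
  have e5 : J a p.2 ≤ 0 := by rw [e3, ← hqa]; exact hq2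
  have e6 : J a p.2 = 0 := le_antisymm e5 e4
  refine ⟨a, ha, p.2, hpu, ?_⟩
  have e7 : (starRingEnd ℂ) D * F a p.2 = 0 := Complex.ext e1 e6
  rcases mul_eq_zero.1 e7 with h | h
  · exfalso
    have : D = 0 := (map_eq_zero _).1 h
    rw [hd, this, norm_zero] at hd0
    exact lt_irrefl _ hd0
  · exact h

end

end Pool.Agent.H30ML
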