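import Pool.Agent.H30ML.Data
import Pool.Agent.H30ML.Topo

/-!
Enclosures of the sums.
-/

set_option autoImplicit false

namespace Pool.Agent.H30ML

noncomputable section

open Complex Real Pool.Agent.H30KAM Set

/-- weighted sums of the terms -/
def Sw (w : ℕ → ℝ) (a u : ℝ) : ℂ := ∑' k, (w k : ℂ) * ee a u k

theorem gc_dotg (X : ℕ → ℕ) (Q : ℕ → ℤ × ℤ) (n : ℕ) :
    gc (dotg X Q n) = ∑ k ∈ Finset.range n, (X k : ℂ) * gc (Q k) := by
  induction n with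
  | zero => simp [dotg, gc]
  | succ n ih =>
    rw [Finset.sum_range_succ, ← ih]
    simp only [dotg, gc_add]
    congr 1
    unfold gc
    push_cast
    ring

theorem dotn_eq (X : ℕ → ℕ) (n : ℕ) :
    ((dotn X n : ℕ) : ℝ) = ∑ k ∈ Finset.range n, (k : ℝ) * X k := by
  induction n with
  | zero => simp [dotn]
  | succ n ih =>
    rw [Finset.sum_range_succ, ← ih]
    simp only [dotn]
    push_cast
    ring

theorem enc {a u σ : ℝ} (hD : Dom a u) (h28 : y a 28 * 2 ^ 80 ≤ 110) {w : ℕ → ℝ}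
    (hw : ∀ k : ℕ, |w k| ≤ ((k : ℝ) + 1) ^ 2) {X : ℕ → ℕ} {E : ℕ → ℝ} {Q : ℕ → ℤ × ℤ}
    (hX : ∀ k < 28, |w k * y a k * 2 ^ 80 - X k| ≤ E k)
    (hQ : ∀ k < 28, ‖vv a u ^ k - gc (Q k) / ((2 ^ 100 : ℝ) : ℂ)‖ ≤ σ * k)
    (hu : ∀ k < 28, Real.exp u ^ k ≤ 101 / 100) :
    ‖Sw w a u - gc (dotg X Q 28) / 2 ^ 180‖ ≤
      (101 / 100 * ∑ k ∈ Finset.range 28, E k + σ * (dotn X 28 : ℕ)) / 2 ^ 80 + 3e-19 := by
  have h1 := approx (w := w) hX hQ hu
  have h2 := trunc hD (w := fun k => (w k : ℂ)) (fun k => by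
    rw [Complex.norm_real, Real.norm_eq_abs]
    exact hw k)
  have h3 : 2 * ww a 28 ≤ 3e-19 := by
    unfold ww
    have h4 : y a 28 ≤ 110 / 2 ^ 80 := by
      rw [le_div_iff₀ (by positivity)]
      exact h28
    have h5 : (((28 : ℕ) : ℝ) + 1) ^ 2 * (y a 28 * (101 / 100) ^ 28) ≤
        (((28 : ℕ) : ℝ) + 1) ^ 2 * (110 / 2 ^ 80 * (101 / 100) ^ 28) := by gcongr
    refine (mul_le_mul_of_nonneg_left h5 (by norm_num)).trans ?_
    norm_num
  rw [gc_dotg, dotn_eq]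
  have e : Sw w a u - (∑ k ∈ Finset.range 28, (X k : ℂ) * gc (Q k)) / 2 ^ 180 =
      (∑ k ∈ Finset.range 28, (w k : ℂ) * ee a u k -
        (∑ k ∈ Finset.range 28, (X k : ℂ) * gc (Q k)) / 2 ^ 180) +
      (∑' k, (w k : ℂ) * ee a u k - ∑ k ∈ Finset.range 28, (w k : ℂ) * ee a u k) := by
    unfold Sw
    ring
  rw [e]
  exact (norm_add_le _ _).trans (add_le_add h1 (h2.trans h3))

theorem all_range {n : ℕ} {f : ℕ → Bool} (h : (List.range n).all f = true) {k : ℕ} (hk : k < n) :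
    f k = true := by
  rw [List.all_eq_true] at h
  exact h k (List.mem_range.2 hk)

/-- the error of the coefficients on the whole interval -/
def Eu : ℝ := 6165521680034

theorem a1_eq : a1 = ((1684309362685659 : ℕ) : ℝ) / 10 ^ 15 := by unfold a1; norm_num

theorem a2_eq : a2 = ((1684309362685679 : ℕ) : ℝ) / 10 ^ 15 := by unfold a2; norm_num

theorem a1_bd : 168 / 100 ≤ a1 := by unfold a1; norm_num

theorem a2_bd : a2 ≤ 17 / 10 := by unfold a2; norm_num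

theorem a12 : a1 ≤ a2 := by unfold a1 a2; norm_num

theorem yu {a : ℝ} (ha : a ∈ Icc a1 a2) {k : ℕ} (hk : k ≤ 28) :
    |y a k * 2 ^ 80 - (Y1 k : ℝ)| ≤ Eu := by
  have h := y_bound (pa := 1684309362685659) (pb := 1684309362685679) (a := a)
    (by rw [← a1_eq]; exact ha.1) (by rw [← a2_eq]; exact ha.2)
    (a1_bd.trans ha.1) (ha.2.trans a2_bd) hk (all_range cku (by omega))
  unfold Eu
  simpa using h

theorem zu {a : ℝ} (ha : a ∈ Icc a1 a2) {k : ℕ} (hk : k ≤ 28) :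
    |1 / (a * k + 1) * y a k * 2 ^ 80 - (Z1 k : ℝ)| ≤ Eu + 1 := by
  have h := z_bound (pa := 1684309362685659) (pb := 1684309362685679) (a := a)
    (by rw [← a1_eq]; exact ha.1) (by rw [← a2_eq]; exact ha.2)
    (a1_bd.trans ha.1) (ha.2.trans a2_bd) hk (all_range cku (by omega))
    (all_range czu (by omega))
  unfold Eu
  simpa using h

theorem y1 {k : ℕ} (hk : k ≤ 28) : |y a1 k * 2 ^ 80 - (Y1 k : ℝ)| ≤ 110 := by
  have h := y_bound (pa := 1684309362685659) (pb := 1684309362685659) (a := a1)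
    (by rw [← a1_eq]) (by rw [← a1_eq]) a1_bd (a12.trans a2_bd) hk (all_range ck1 (by omega))
  simpa using h

theorem z1 {k : ℕ} (hk : k ≤ 28) : |1 / (a1 * k + 1) * y a1 k * 2 ^ 80 - (Z1 k : ℝ)| ≤ 111 := by
  have h := z_bound (pa := 1684309362685659) (pb := 1684309362685659) (a := a1)
    (by rw [← a1_eq]) (by rw [← a1_eq]) a1_bd (a12.trans a2_bd) hk (all_range ck1 (by omega))
    (all_range cz1 (by omega))
  refine h.trans (le_of_eq ?_)
  norm_num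

theorem y2 {k : ℕ} (hk : k ≤ 28) : |y a2 k * 2 ^ 80 - (Y2 k : ℝ)| ≤ 110 := by
  have h := y_bound (pa := 1684309362685679) (pb := 1684309362685679) (a := a2)
    (by rw [← a2_eq]) (by rw [← a2_eq]) (a1_bd.trans a12) a2_bd hk (all_range ck2 (by omega))
  simpa using h

theorem z2 {k : ℕ} (hk : k ≤ 28) : |1 / (a2 * k + 1) * y a2 k * 2 ^ 80 - (Z2 k : ℝ)| ≤ 111 := by
  have h := z_bound (pa := 1684309362685679) (pb := 1684309362685679) (a := a2)
    (by rw [← a2_eq]) (by rw [← a2_eq]) (a1_bd.trans a12) a2_bd hk (all_range ck2 (by omega))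
    (all_range cz2 (by omega))
  refine h.trans (le_of_eq ?_)
  norm_num

theorem y28 {a : ℝ} (ha : a ∈ Icc a1 a2) : y a 28 * 2 ^ 80 ≤ 110 := by
  have h := y_bound (pa := 1684309362685659) (pb := 1684309362685679) (a := a) (Y := 0)
    (by rw [← a1_eq]; exact ha.1) (by rw [← a2_eq]; exact ha.2)
    (a1_bd.trans ha.1) (ha.2.trans a2_bd) (le_refl 28) ck28
  rw [Nat.cast_zero, sub_zero] at h
  exact (le_abs_self _).trans h

theorem dom {a u : ℝ} (ha : a ∈ Icc a1 a2) (hu : |u| < 9 / 1000) : Dom a u where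
  h1 := a1_bd.trans ha.1
  h2 := ha.2.trans a2_bd
  hu := hu
  hy := by
    intro k hk
    have h1 := yu ha hk
    have h2 : Y1 k ≤ 59 * 2 ^ 80 := by
      have := all_range cbig (k := k) (by omega)
      exact Nat.ble_eq.mp this
    have h3 : (Y1 k : ℝ) ≤ 59 * 2 ^ 80 := by exact_mod_cast h2
    have h4 := (abs_le.1 h1).2
    have h5 : Eu ≤ 2 ^ 80 := by unfold Eu; norm_num
    have h6 : y a k * 2 ^ 80 ≤ 60 * 2 ^ 80 := by linarith
    exact le_of_mul_le_mul_right h6 (by positivity)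

/-- powers at the left end -/
theorem qa_pow {k : ℕ} (hk : k < 28) :
    ‖vv a1 0 ^ k - gc (Qa k) / ((2 ^ 100 : ℝ) : ℂ)‖ ≤ 1.8e-21 * k := by
  have h0 : ‖vv a1 0 ^ 0 - gc (2 ^ 100, 0) / ((2 ^ 100 : ℝ) : ℂ)‖ ≤ 1.8e-21 * (0 : ℕ) := by
    have : gc (2 ^ 100, 0) / ((2 ^ 100 : ℝ) : ℂ) = 1 := by
      unfold gc
      push_cast
      norm_num
    rw [this]
    simp
  have hs := chk_spec (by norm_num) (by rw [norm_vv, Real.exp_zero]) closea qa_norm Qat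
    (2 ^ 100, 0) 0 h0 cq1 k (by rw [List.length_cons, clen1]; omega)
  rw [zero_add] at hs
  exact hs

theorem qb_pow {k : ℕ} (hk : k < 28) :
    ‖vv a2 0 ^ k - gc (Qb k) / ((2 ^ 100 : ℝ) : ℂ)‖ ≤ 1.8e-21 * k := by
  have h0 : ‖vv a2 0 ^ 0 - gc (2 ^ 100, 0) / ((2 ^ 100 : ℝ) : ℂ)‖ ≤ 1.8e-21 * (0 : ℕ) := by
    have : gc (2 ^ 100, 0) / ((2 ^ 100 : ℝ) : ℂ) = 1 := by
      unfold gc
      push_cast
      norm_num
    rw [this]
    simp
  have hs := chk_spec (by norm_num) (by rw [norm_vv, Real.exp_zero]) closeb qb_norm Qbt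
    (2 ^ 100, 0) 0 h0 cq2 k (by rw [List.length_cons, clen2]; omega)
  rw [zero_add] at hs
  exact hs

theorem pow_diff {z w : ℂ} {r : ℝ} (hr : 1 ≤ r) (hz : ‖z‖ ≤ r) (hw : ‖w‖ ≤ r) (k : ℕ) :
    ‖z ^ k - w ^ k‖ ≤ k * r ^ k * ‖z - w‖ := by
  induction k with
  | zero => simp
  | succ k ih =>
    have e : z ^ (k + 1) - w ^ (k + 1) = z ^ k * (z - w) + (z ^ k - w ^ k) * w := by ring
    rw [e]
    have h1 : ‖z ^ k * (z - w)‖ ≤ r ^ (k + 1) * ‖z - w‖ := by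
      rw [norm_mul, norm_pow]
      apply mul_le_mul_of_nonneg_right _ (norm_nonneg _)
      exact (pow_le_pow_left₀ (norm_nonneg _) hz k).trans
        (pow_le_pow_right₀ hr (Nat.le_succ k))
    have h2 : ‖(z ^ k - w ^ k) * w‖ ≤ (k * r ^ k * ‖z - w‖) * r := by
      rw [norm_mul]
      apply mul_le_mul ih hw (norm_nonneg _) (by positivity)
    refine (norm_add_le _ _).trans ((add_le_add h1 h2).trans (le_of_eq ?_))
    push_cast
    ring

theorem vv_diff {a u : ℝ} (ha : a ∈ Icc a1 a2) (hu : |u| ≤ 1) :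
    ‖vv a u - vv a1 0‖ ≤ 2 * |u| + 3.15e-14 := by
  have h1 : ‖vv a u - vv a 0‖ ≤ 2 * |u| := by
    have e : vv a u - vv a 0 = vv a 0 * ((Real.exp u - 1 : ℝ) : ℂ) := by
      unfold vv
      push_cast
      rw [mul_sub, mul_one, ← Complex.exp_add]
      congr 2
      ring
    rw [e, norm_mul, norm_vv, Real.exp_zero, one_mul, Complex.norm_real, Real.norm_eq_abs]
    exact Real.abs_exp_sub_one_le hu
  have h2 : ‖vv a 0 - vv a1 0‖ ≤ 3.15e-14 := by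
    have e : vv a 0 - vv a1 0 =
        vv a1 0 * (Complex.exp (I * ((-(π * (a - a1) / 2) : ℝ) : ℂ)) - 1) := by
      unfold vv
      rw [mul_sub, mul_one, ← Complex.exp_add]
      congr 2
      push_cast
      ring
    rw [e, norm_mul, norm_vv, Real.exp_zero, one_mul]
    refine (Real.norm_exp_I_mul_ofReal_sub_one_le).trans ?_
    rw [Real.norm_eq_abs, abs_neg, abs_div, abs_mul, abs_of_pos Real.pi_pos, abs_two]
    have h3 : |a - a1| ≤ 2e-14 := by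
      rw [abs_of_nonneg (by linarith [ha.1])]
      have h4 : a2 - a1 ≤ 2e-14 := by unfold a1 a2; norm_num
      linarith [ha.2]
    have h5 := Real.pi_lt_d2
    calc π * |a - a1| / 2 ≤ 3.15 * 2e-14 / 2 := by gcongr
      _ = _ := by norm_num
  calc ‖vv a u - vv a1 0‖ = ‖(vv a u - vv a 0) + (vv a 0 - vv a1 0)‖ := by
        congr 1
        ring
    _ ≤ _ := (norm_add_le _ _).trans (add_le_add h1 h2)

theorem exp_pow_le {u : ℝ} (hu : |u| ≤ 1e-6) (k : ℕ) (hk : k < 28) :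
    Real.exp |u| ^ k ≤ 101 / 100 := by
  rw [← Real.exp_nat_mul]
  have h1 : (k : ℝ) * |u| < 9 / 1000 := by
    have hk' : (k : ℝ) ≤ 28 := by exact_mod_cast hk.le
    calc (k : ℝ) * |u| ≤ 28 * 1e-6 := by gcongr
      _ < _ := by norm_num
  have h2 : abs ((k : ℝ) * |u|) < 9 / 1000 := by
    rw [abs_of_nonneg (by positivity)]
    exact h1
  exact exp_le_of_small h2

theorem q_all {a u : ℝ} (ha : a ∈ Icc a1 a2) (hu : |u| ≤ 1e-6) {k : ℕ} (hk : k < 28) :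
    ‖vv a u ^ k - gc (Qa k) / ((2 ^ 100 : ℝ) : ℂ)‖ ≤
      ((2 * |u| + 3.15e-14) * (101 / 100) + 1.8e-21) * k := by
  have hu1 : |u| ≤ 1 := hu.trans (by norm_num)
  have hr : 1 ≤ Real.exp |u| := Real.one_le_exp (abs_nonneg _)
  have h1 := pow_diff (z := vv a u) (w := vv a1 0) hr
    (by rw [norm_vv]; exact Real.exp_le_exp.2 (le_abs_self _))
    (by rw [norm_vv, Real.exp_zero]; exact hr) k
  have h2 := vv_diff ha hu1
  have h3 := exp_pow_le hu k hk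
  have h4 := qa_pow hk
  have h5 : (k : ℝ) * Real.exp |u| ^ k * ‖vv a u - vv a1 0‖ ≤
      k * (101 / 100) * (2 * |u| + 3.15e-14) := by gcongr
  calc ‖vv a u ^ k - gc (Qa k) / ((2 ^ 100 : ℝ) : ℂ)‖
      = ‖(vv a u ^ k - vv a1 0 ^ k) + (vv a1 0 ^ k - gc (Qa k) / ((2 ^ 100 : ℝ) : ℂ))‖ := by
        congr 1
        ring
    _ ≤ k * (101 / 100) * (2 * |u| + 3.15e-14) + 1.8e-21 * k :=
        (norm_add_le _ _).trans (add_le_add (h1.trans h5) h4)
    _ = _ := by ring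

theorem eu_pow {u : ℝ} (hu : |u| ≤ 1e-6) (k : ℕ) (hk : k < 28) :
    Real.exp u ^ k ≤ 101 / 100 :=
  (pow_le_pow_left₀ (Real.exp_pos _).le (Real.exp_le_exp.2 (le_abs_self u)) k).trans
    (exp_pow_le hu k hk)

/-- the weights -/
def w0 (_ : ℕ) : ℝ := 1

def w1 (k : ℕ) : ℝ := k

def w2 (k : ℕ) : ℝ := (k : ℝ) ^ 2

def wc (a : ℝ) (k : ℕ) : ℝ := 1 / (a * k + 1)

theorem w0_le (k : ℕ) : |w0 k| ≤ ((k : ℝ) + 1) ^ 2 := by
  unfold w0
  rw [abs_one]
  have : (0 : ℝ) ≤ k := by positivity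
  nlinarith

theorem w1_le (k : ℕ) : |w1 k| ≤ ((k : ℝ) + 1) ^ 2 := by
  unfold w1
  have : (0 : ℝ) ≤ k := by positivity
  rw [abs_of_nonneg this]
  nlinarith

theorem w2_le (k : ℕ) : |w2 k| ≤ ((k : ℝ) + 1) ^ 2 := by
  unfold w2
  have : (0 : ℝ) ≤ k := by positivity
  rw [abs_of_nonneg (by positivity)]
  nlinarith

theorem wc_abs {a : ℝ} (ha : 0 < a) (k : ℕ) : |wc a k| ≤ 1 := by
  unfold wc
  have h := arg_pos ha k
  rw [abs_of_pos (by positivity), div_le_one h]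
  have : (0 : ℝ) ≤ a * k := by positivity
  linarith

theorem wc_le {a : ℝ} (ha : 0 < a) (k : ℕ) : |wc a k| ≤ ((k : ℝ) + 1) ^ 2 := by
  have h := wc_abs ha k
  have : (0 : ℝ) ≤ k := by positivity
  nlinarith

/-- a bundle of coefficient bounds -/
structure CB (a u σ E : ℝ) (Y Z : ℕ → ℕ) (Q : ℕ → ℤ × ℤ) : Prop where
  d : Dom a u
  h28 : y a 28 * 2 ^ 80 ≤ 110
  hy : ∀ k < 28, |y a k * 2 ^ 80 - (Y k : ℝ)| ≤ E
  hz : ∀ k < 28, |1 / (a * k + 1) * y a k * 2 ^ 80 - (Z k : ℝ)| ≤ E + 1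
  hQ : ∀ k < 28, ‖vv a u ^ k - gc (Q k) / ((2 ^ 100 : ℝ) : ℂ)‖ ≤ σ * k
  hu : ∀ k < 28, Real.exp u ^ k ≤ 101 / 100

theorem CB.s0 {a u σ E : ℝ} {Y Z : ℕ → ℕ} {Q : ℕ → ℤ × ℤ} (h : CB a u σ E Y Z Q) :
    ‖Sw w0 a u - gc (dotg Y Q 28) / 2 ^ 180‖ ≤
      (101 / 100 * (28 * E) + σ * (dotn Y 28 : ℕ)) / 2 ^ 80 + 3e-19 := by
  have := enc h.d h.h28 w0_le (X := Y) (E := fun _ => E) (Q := Q) (σ := σ)
    (fun k hk => by unfold w0; rw [one_mul]; exact h.hy k hk) h.hQ h.hu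
  simpa using this

theorem CB.s1 {a u σ E : ℝ} {Y Z : ℕ → ℕ} {Q : ℕ → ℤ × ℤ} (h : CB a u σ E Y Z Q) :
    ‖Sw w1 a u - gc (dotg (fun k => k * Y k) Q 28) / 2 ^ 180‖ ≤
      (101 / 100 * (378 * E) + σ * (dotn (fun k => k * Y k) 28 : ℕ)) / 2 ^ 80 + 3e-19 := by
  have := enc h.d h.h28 w1_le (X := fun k => k * Y k) (E := fun k => k * E) (Q := Q) (σ := σ)
    (fun k hk => by
      unfold w1
      have e : (k : ℝ) * y a k * 2 ^ 80 - ((k * Y k : ℕ) : ℝ) =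
          k * (y a k * 2 ^ 80 - (Y k : ℝ)) := by
        push_cast
        ring
      rw [e, abs_mul, abs_of_nonneg (by positivity)]
      exact mul_le_mul_of_nonneg_left (h.hy k hk) (by positivity)) h.hQ h.hu
  have e : ∑ k ∈ Finset.range 28, (k : ℝ) * E = 378 * E := by
    rw [← Finset.sum_mul]
    congr 1
    simp only [Finset.sum_range_succ, Finset.sum_range_zero]
    norm_num
  rwa [e] at this

theorem CB.s2 {a u σ E : ℝ} {Y Z : ℕ → ℕ} {Q : ℕ → ℤ × ℤ} (h : CB a u σ E Y Z Q) :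
    ‖Sw w2 a u - gc (dotg (fun k => k ^ 2 * Y k) Q 28) / 2 ^ 180‖ ≤
      (101 / 100 * (6930 * E) + σ * (dotn (fun k => k ^ 2 * Y k) 28 : ℕ)) / 2 ^ 80 + 3e-19 := by
  have := enc h.d h.h28 w2_le (X := fun k => k ^ 2 * Y k) (E := fun k => (k : ℝ) ^ 2 * E)
    (Q := Q) (σ := σ)
    (fun k hk => by
      unfold w2
      have e : (k : ℝ) ^ 2 * y a k * 2 ^ 80 - ((k ^ 2 * Y k : ℕ) : ℝ) =
          (k : ℝ) ^ 2 * (y a k * 2 ^ 80 - (Y k : ℝ)) := by
        push_cast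
        ring
      rw [e, abs_mul, abs_of_nonneg (by positivity)]
      exact mul_le_mul_of_nonneg_left (h.hy k hk) (by positivity)) h.hQ h.hu
  have e : ∑ k ∈ Finset.range 28, (k : ℝ) ^ 2 * E = 6930 * E := by
    rw [← Finset.sum_mul]
    congr 1
    simp only [Finset.sum_range_succ, Finset.sum_range_zero]
    norm_num
  rwa [e] at this

theorem CB.sc {a u σ E : ℝ} {Y Z : ℕ → ℕ} {Q : ℕ → ℤ × ℤ} (h : CB a u σ E Y Z Q) :
    ‖Sw (wc a) a u - gc (dotg Z Q 28) / 2 ^ 180‖ ≤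
      (101 / 100 * (28 * (E + 1)) + σ * (dotn Z 28 : ℕ)) / 2 ^ 80 + 3e-19 := by
  have ha : 0 < a := by linarith [h.d.h1]
  have := enc h.d h.h28 (wc_le ha) (X := Z) (E := fun _ => E + 1) (Q := Q) (σ := σ)
    (fun k hk => h.hz k hk) h.hQ h.hu
  rw [Finset.sum_const, Finset.card_range, nsmul_eq_mul, Nat.cast_ofNat] at this
  exact this

end

end Pool.Agent.H30ML
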