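import Mathlib

/-!
Bounds of the Gamma function through the incomplete Gamma function.
-/

set_option autoImplicit false

namespace Pool.Agent.H30ML

noncomputable section

open Real MeasureTheory Set

/-- the integrand -/
def hh (s v : ℝ) : ℝ := v ^ (s - 1) * Real.exp (90 * (1 - v))

/-- the normalized Gamma function -/
def G (s : ℝ) : ℝ := Real.exp 90 * ((1 / 90) ^ s * Real.Gamma s)

/-- the normalized lower incomplete Gamma function -/
def P (s : ℝ) : ℝ := ∫ v in (0 : ℝ)..1, hh s v

theorem hh_eq (s v : ℝ) : hh s v = Real.exp 90 * (v ^ (s - 1) * Real.exp (-(90 * v))) := by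
  unfold hh
  rw [show 90 * (1 - v) = 90 + -(90 * v) by ring, Real.exp_add]
  ring

theorem hh_int {s : ℝ} (hs : 0 < s) : IntegrableOn (hh s) (Ioi 0) := by
  have h := integrableOn_rpow_mul_exp_neg_mul_rpow (s := s - 1) (p := 1) (b := 90) (by linarith)
    (by norm_num) (by norm_num)
  have h2 : IntegrableOn (fun x : ℝ => Real.exp 90 * (x ^ (s - 1) * Real.exp (-90 * x ^ (1 : ℝ))))
      (Ioi 0) := h.const_mul (Real.exp 90)
  refine IntegrableOn.congr_fun h2 ?_ measurableSet_Ioi
  intro v _
  simp only [Real.rpow_one, hh_eq, neg_mul]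

theorem G_eq {s : ℝ} (hs : 0 < s) : G s = ∫ v in Ioi (0 : ℝ), hh s v := by
  have h := Real.integral_rpow_mul_exp_neg_mul_Ioi hs (show (0 : ℝ) < 90 by norm_num)
  unfold G
  rw [← h, ← integral_const_mul]
  congr 1
  ext v
  rw [hh_eq]

theorem hh_nonneg (s : ℝ) {v : ℝ} (hv : 0 ≤ v) : 0 ≤ hh s v := by
  unfold hh
  positivity

theorem P_eq (s : ℝ) : P s = ∫ v in Ioc (0 : ℝ) 1, hh s v := by
  unfold P
  rw [intervalIntegral.integral_of_le (by norm_num)]

theorem P_nonneg (s : ℝ) : 0 ≤ P s := by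
  rw [P_eq]
  apply setIntegral_nonneg measurableSet_Ioc
  intro v hv
  exact hh_nonneg s hv.1.le

theorem G_split {s : ℝ} (hs : 0 < s) : G s = P s + ∫ v in Ioi (1 : ℝ), hh s v := by
  rw [G_eq hs, P_eq, ← setIntegral_union (Ioc_disjoint_Ioi le_rfl) measurableSet_Ioi
    ((hh_int hs).mono_set Ioc_subset_Ioi_self)
    ((hh_int hs).mono_set (Ioi_subset_Ioi (by norm_num))), Ioc_union_Ioi_eq_Ioi (by norm_num)]

theorem tail_nonneg (s : ℝ) : 0 ≤ ∫ v in Ioi (1 : ℝ), hh s v := by
  apply setIntegral_nonneg measurableSet_Ioi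
  intro v hv
  have : (1 : ℝ) < v := hv
  exact hh_nonneg s (by linarith)

theorem P_le_G {s : ℝ} (hs : 0 < s) : P s ≤ G s := by
  rw [G_split hs]
  linarith [tail_nonneg s]

theorem tail_le {s : ℝ} (hs : 1 ≤ s) (hs2 : s < 91) :
    ∫ v in Ioi (1 : ℝ), hh s v ≤ 1 / (91 - s) := by
  have hneg : s - 91 < 0 := by linarith
  have h1 : ∫ v in Ioi (1 : ℝ), hh s v ≤
      ∫ v in Ioi (1 : ℝ), Real.exp (91 - s) * Real.exp ((s - 91) * v) := by
    apply setIntegral_mono_on ((hh_int (by linarith)).mono_set (Ioi_subset_Ioi (by norm_num)))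
      ((integrableOn_exp_mul_Ioi hneg 1).const_mul _) measurableSet_Ioi
    intro v hv
    have hv1 : (1 : ℝ) < v := hv
    unfold hh
    have h2 : v ≤ Real.exp (v - 1) := by
      have := Real.add_one_le_exp (v - 1)
      linarith
    have h3 : v ^ (s - 1) ≤ Real.exp (v - 1) ^ (s - 1) :=
      Real.rpow_le_rpow (by linarith) h2 (by linarith)
    rw [← Real.exp_mul] at h3
    calc v ^ (s - 1) * Real.exp (90 * (1 - v))
        ≤ Real.exp ((v - 1) * (s - 1)) * Real.exp (90 * (1 - v)) :=
          mul_le_mul_of_nonneg_right h3 (Real.exp_pos _).le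
      _ = Real.exp (91 - s) * Real.exp ((s - 91) * v) := by
          rw [← Real.exp_add, ← Real.exp_add]
          congr 1
          ring
  refine h1.trans (le_of_eq ?_)
  rw [integral_const_mul, integral_exp_mul_Ioi hneg, ← mul_div_assoc, mul_neg, ← Real.exp_add]
  have e : 91 - s + (s - 91) * 1 = 0 := by ring
  rw [e, Real.exp_zero, neg_div, ← div_neg]
  congr 1
  ring

theorem G_le {s : ℝ} (hs : 1 ≤ s) (hs2 : s < 91) : G s ≤ P s + 1 / (91 - s) := by
  rw [G_split (by linarith)]
  linarith [tail_le hs hs2]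

theorem P_anti {s s' : ℝ} (hs : 0 < s) (h : s ≤ s') : P s' ≤ P s := by
  rw [P_eq, P_eq]
  apply setIntegral_mono_on ((hh_int (by linarith)).mono_set Ioc_subset_Ioi_self)
    ((hh_int hs).mono_set Ioc_subset_Ioi_self) measurableSet_Ioc
  intro v hv
  unfold hh
  apply mul_le_mul_of_nonneg_right _ (Real.exp_pos _).le
  exact Real.rpow_le_rpow_of_exponent_ge hv.1 hv.2 (by linarith)

theorem P_rec {s : ℝ} (hs : 1 ≤ s) : s * P s = 1 + 90 * P (s + 1) := by
  have hd : ∀ v ∈ uIcc (0 : ℝ) 1, HasDerivAt (fun v : ℝ => v ^ s * Real.exp (90 * (1 - v)))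
      (s * hh s v - 90 * hh (s + 1) v) v := by
    intro v _
    have h1 : HasDerivAt (fun v : ℝ => v ^ s) (s * v ^ (s - 1)) v :=
      Real.hasDerivAt_rpow_const (Or.inr hs)
    have h2 : HasDerivAt (fun v : ℝ => 90 * (1 - v)) (90 * (0 - 1)) v :=
      ((hasDerivAt_const v (1 : ℝ)).sub (hasDerivAt_id v)).const_mul 90
    have h3 := h1.mul h2.exp
    have e : s * hh s v - 90 * hh (s + 1) v =
        s * v ^ (s - 1) * Real.exp (90 * (1 - v)) +
          v ^ s * (Real.exp (90 * (1 - v)) * (90 * (0 - 1))) := by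
      unfold hh
      rw [show s + 1 - 1 = s by ring]
      ring
    rw [e]
    exact h3
  have hi1 : IntervalIntegrable (hh s) volume 0 1 := by
    rw [intervalIntegrable_iff_integrableOn_Ioc_of_le (by norm_num)]
    exact (hh_int (by linarith)).mono_set Ioc_subset_Ioi_self
  have hi2 : IntervalIntegrable (hh (s + 1)) volume 0 1 := by
    rw [intervalIntegrable_iff_integrableOn_Ioc_of_le (by norm_num)]
    exact (hh_int (by linarith)).mono_set Ioc_subset_Ioi_self
  have hi := (hi1.const_mul s).sub (hi2.const_mul 90)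
  have h4 := intervalIntegral.integral_eq_sub_of_hasDerivAt hd hi
  rw [intervalIntegral.integral_sub (hi1.const_mul s) (hi2.const_mul 90),
    intervalIntegral.integral_const_mul, intervalIntegral.integral_const_mul] at h4
  rw [Real.one_rpow, Real.zero_rpow (by linarith), sub_self, mul_zero, Real.exp_zero] at h4
  unfold P
  linarith

theorem P_le_one {s : ℝ} (hs : 91 ≤ s) : P s ≤ 1 := by
  have h1 := P_rec (show 1 ≤ s by linarith)
  have h2 := P_anti (show 0 < s by linarith) (show s ≤ s + 1 by linarith)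
  have h3 := P_nonneg s
  nlinarith

theorem G_pos {s : ℝ} (hs : 0 < s) : 0 < G s := by
  unfold G
  have := Real.Gamma_pos_of_pos hs
  positivity

/-- the downward recursion for lower bounds -/
def dnL (q base : ℕ) : ℕ → ℕ → ℕ
  | 0, acc => acc
  | (j + 1), acc => dnL q base j (q * (2 ^ 100 + 90 * acc) / (base + j * q))

/-- the downward recursion for upper bounds -/
def dnU (q base : ℕ) : ℕ → ℕ → ℕ
  | 0, acc => acc
  | (j + 1), acc => dnU q base j (q * (2 ^ 100 + 90 * acc) / (base + j * q) + 1)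

theorem dnL_spec {q base : ℕ} (hq : 0 < q) (hb : q ≤ base) (j : ℕ) (acc : ℕ)
    (h : (acc : ℝ) ≤ P ((base : ℝ) / q + j) * 2 ^ 100) :
    (dnL q base j acc : ℝ) ≤ P ((base : ℝ) / q) * 2 ^ 100 := by
  induction j generalizing acc with
  | zero => simpa [dnL] using h
  | succ j ih =>
    simp only [dnL]
    apply ih
    have hq' : (0 : ℝ) < q := by exact_mod_cast hq
    have hb' : (q : ℝ) ≤ base := by exact_mod_cast hb
    have hs : 1 ≤ (base : ℝ) / q + j := by
      have : 1 ≤ (base : ℝ) / q := by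
        rw [le_div_iff₀ hq']
        linarith
      have hj : (0 : ℝ) ≤ j := by positivity
      linarith
    have h1 := P_rec hs
    have e : (base : ℝ) / q + j + 1 = (base : ℝ) / q + (j + 1 : ℕ) := by
      push_cast
      ring
    rw [e] at h1
    have hbase : (0 : ℝ) < base + j * q := by
      have hj : (0 : ℝ) ≤ (j : ℝ) * q := by positivity
      linarith
    have h2 : ((q * (2 ^ 100 + 90 * acc) / (base + j * q) : ℕ) : ℝ) ≤
        (q * (2 ^ 100 + 90 * acc) : ℝ) / (base + j * q) := by
      refine Nat.cast_div_le.trans (le_of_eq ?_)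
      push_cast
      norm_num
    refine h2.trans ?_
    rw [div_le_iff₀ hbase]
    have e2 : (base : ℝ) + j * q = q * ((base : ℝ) / q + j) := by
      field_simp
    rw [e2]
    have e3 : P ((base : ℝ) / q + j) * 2 ^ 100 * (q * ((base : ℝ) / q + j)) =
        q * (2 ^ 100 * (((base : ℝ) / q + j) * P ((base : ℝ) / q + j))) := by ring
    rw [e3, h1]
    apply mul_le_mul_of_nonneg_left _ hq'.le
    linarith

theorem dnU_spec {q base : ℕ} (hq : 0 < q) (hb : q ≤ base) (j : ℕ) (acc : ℕ)
    (h : P ((base : ℝ) / q + j) * 2 ^ 100 ≤ acc) :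
    P ((base : ℝ) / q) * 2 ^ 100 ≤ (dnU q base j acc : ℝ) := by
  induction j generalizing acc with
  | zero => simpa [dnU] using h
  | succ j ih =>
    simp only [dnU]
    apply ih
    have hq' : (0 : ℝ) < q := by exact_mod_cast hq
    have hb' : (q : ℝ) ≤ base := by exact_mod_cast hb
    have hs : 1 ≤ (base : ℝ) / q + j := by
      have : 1 ≤ (base : ℝ) / q := by
        rw [le_div_iff₀ hq']
        linarith
      have hj : (0 : ℝ) ≤ j := by positivity
      linarith
    have h1 := P_rec hs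
    have e : (base : ℝ) / q + j + 1 = (base : ℝ) / q + (j + 1 : ℕ) := by
      push_cast
      ring
    rw [e] at h1
    have hbase : (0 : ℝ) < base + j * q := by
      have hj : (0 : ℝ) ≤ (j : ℝ) * q := by positivity
      linarith
    have h2 : (q * (2 ^ 100 + 90 * acc) : ℝ) / (base + j * q) ≤
        ((q * (2 ^ 100 + 90 * acc) / (base + j * q) + 1 : ℕ) : ℝ) := by
      have h3 := Nat.lt_div_mul_add (a := q * (2 ^ 100 + 90 * acc))
        (show 0 < base + j * q by
          have : 0 < base := lt_of_lt_of_le hq hb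
          omega)
      rw [div_le_iff₀ hbase]
      have h4 : q * (2 ^ 100 + 90 * acc) ≤
          (q * (2 ^ 100 + 90 * acc) / (base + j * q) + 1) * (base + j * q) := by
        rw [add_mul, one_mul]
        exact h3.le
      exact_mod_cast h4
    refine le_trans ?_ h2
    rw [le_div_iff₀ hbase]
    have e2 : (base : ℝ) + j * q = q * ((base : ℝ) / q + j) := by
      field_simp
    rw [e2]
    have e3 : P ((base : ℝ) / q + j) * 2 ^ 100 * (q * ((base : ℝ) / q + j)) =
        q * (2 ^ 100 * (((base : ℝ) / q + j) * P ((base : ℝ) / q + j))) := by ring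
    rw [e3, h1]
    apply mul_le_mul_of_nonneg_left _ hq'.le
    linarith

theorem P_lower {q base : ℕ} (hq : 0 < q) (hb : q ≤ base) :
    (dnL q base 250 0 : ℝ) / 2 ^ 100 ≤ P ((base : ℝ) / q) := by
  rw [div_le_iff₀ (by positivity)]
  apply dnL_spec hq hb
  have := P_nonneg ((base : ℝ) / q + (250 : ℕ))
  rw [Nat.cast_zero]
  exact mul_nonneg this (by positivity)

theorem P_upper {q base : ℕ} (hq : 0 < q) (hb : q ≤ base) :
    P ((base : ℝ) / q) ≤ (dnU q base 250 (2 ^ 100) : ℝ) / 2 ^ 100 := by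
  rw [le_div_iff₀ (by positivity)]
  apply dnU_spec hq hb
  have h : P ((base : ℝ) / q + (250 : ℕ)) ≤ 1 := by
    apply P_le_one
    have : (0 : ℝ) ≤ (base : ℝ) / q := by positivity
    push_cast
    linarith
  push_cast
  linarith

end

end Pool.Agent.H30ML
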