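import Pool.Agent.H30ML.Ang

/-!
From integer checks to bounds of the sums.
-/

set_option autoImplicit false

namespace Pool.Agent.H30ML

open Pool.Agent.H30KAM

/-- the check of a coefficient -/
def chkY (pa pb E k Y : ℕ) : Bool :=
  Nat.ble (2 ^ 303 * 8759007823163055259539 ^ k)
    ((Y + E) * (dnL (10 ^ 15) (pb * k + 10 ^ 15) 250 0 * (10 ^ 24) ^ k)) &&
  Nat.ble ((Y - E) * ((40 * dnU (10 ^ 15) (pa * k + 10 ^ 15) 250 (2 ^ 100) + 2 ^ 100) *
    (10 ^ 24) ^ k)) (40 * (2 ^ 303 * 8759007823163055259539 ^ k))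

/-- the check of a divided coefficient -/
def chkZ (pa pb E k Y Z : ℕ) : Bool :=
  Nat.ble ((Y + E) * 10 ^ 15) ((Z + E + 1) * (pa * k + 10 ^ 15)) &&
  Nat.ble ((Z - E - 1) * (pb * k + 10 ^ 15)) ((Y - E) * 10 ^ 15)

noncomputable section

open Complex Real

theorem y_bound {pa pb E k Y : ℕ} {a : ℝ} (ha1 : (pa : ℝ) / 10 ^ 15 ≤ a)
    (ha2 : a ≤ (pb : ℝ) / 10 ^ 15) (h1 : 168 / 100 ≤ a) (h2 : a ≤ 17 / 10) (hk : k ≤ 28)
    (hc : chkY pa pb E k Y = true) : |y a k * 2 ^ 80 - (Y : ℝ)| ≤ (E : ℝ) := by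
  unfold chkY at hc
  simp only [Bool.and_eq_true, Nat.ble_eq] at hc
  obtain ⟨c1, c2⟩ := hc
  have ha : 0 < a := by linarith
  have hk' : (k : ℝ) ≤ 28 := by exact_mod_cast hk
  have hk0 : (0 : ℝ) ≤ k := by positivity
  have hs := arg_pos ha k
  have hG := G_pos hs
  have hs1 : 1 ≤ a * k + 1 := by nlinarith
  have hs2 : a * k + 1 ≤ 51 := by nlinarith
  -- bounds of G
  have sb : ∀ p : ℕ, ((p * k + 10 ^ 15 : ℕ) : ℝ) / (10 ^ 15 : ℕ) = (p : ℝ) / 10 ^ 15 * k + 1 := by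
    intro p
    push_cast
    field_simp
    norm_num
    ring
  have g1 : (dnL (10 ^ 15) (pb * k + 10 ^ 15) 250 0 : ℝ) / 2 ^ 100 ≤ G (a * k + 1) := by
    have h3 := P_lower (q := 10 ^ 15) (base := pb * k + 10 ^ 15) (by norm_num) (by omega)
    rw [sb] at h3
    refine h3.trans ((P_anti hs ?_).trans (P_le_G hs))
    have := mul_le_mul_of_nonneg_right ha2 hk0
    linarith
  have g2 : G (a * k + 1) ≤ (dnU (10 ^ 15) (pa * k + 10 ^ 15) 250 (2 ^ 100) : ℝ) / 2 ^ 100 +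
      1 / 40 := by
    have h3 := P_upper (q := 10 ^ 15) (base := pa * k + 10 ^ 15) (by norm_num) (by omega)
    rw [sb] at h3
    have h4 := G_le hs1 (by linarith)
    have h5 : P (a * k + 1) ≤ P ((pa : ℝ) / 10 ^ 15 * k + 1) := by
      apply P_anti (by positivity)
      have := mul_le_mul_of_nonneg_right ha1 hk0
      linarith
    have h6 : 1 / (91 - (a * k + 1)) ≤ (1 : ℝ) / 40 := by
      apply one_div_le_one_div_of_le (by norm_num)
      linarith
    linarith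
  set L : ℝ := (dnL (10 ^ 15) (pb * k + 10 ^ 15) 250 0 : ℝ) with hL
  set U : ℝ := (dnU (10 ^ 15) (pa * k + 10 ^ 15) 250 (2 ^ 100) : ℝ) with hU
  have hL0 : 0 ≤ L := by rw [hL]; positivity
  have hU0 : 0 ≤ U := by rw [hU]; positivity
  have c1' : (2 ^ 303 * 8759007823163055259539 ^ k : ℝ) ≤ (Y + E) * (L * (10 ^ 24) ^ k) := by
    rw [hL]
    exact_mod_cast c1
  have c2' : ((Y : ℝ) - E) * ((40 * U + 2 ^ 100) * (10 ^ 24) ^ k) ≤
      40 * (2 ^ 303 * 8759007823163055259539 ^ k) := by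
    have h3 : ((Y : ℝ) - E) ≤ ((Y - E : ℕ) : ℝ) := by
      rw [sub_le_iff_le_add]
      have : Y ≤ Y - E + E := by omega
      exact_mod_cast this
    have h4 : (((Y - E : ℕ) : ℝ)) * ((40 * U + 2 ^ 100) * (10 ^ 24) ^ k) ≤
        40 * (2 ^ 303 * 8759007823163055259539 ^ k) := by
      rw [hU]
      exact_mod_cast c2
    exact (mul_le_mul_of_nonneg_right h3 (by positivity)).trans h4
  have hT : t0 ^ k = 8759007823163055259539 ^ k / (10 ^ 24) ^ k := by
    unfold t0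
    rw [div_pow]
  have hp1 : (0 : ℝ) < (10 ^ 24) ^ k := by positivity
  have hy : y a k * 2 ^ 80 = 2 ^ 203 * (8759007823163055259539 ^ k / (10 ^ 24) ^ k) /
      G (a * k + 1) := by
    unfold y
    rw [hT]
    ring
  have hp2 : (0 : ℝ) < 8759007823163055259539 ^ k := by positivity
  have e303 : (2 : ℝ) ^ 303 = 2 ^ 203 * 2 ^ 100 := by rw [← pow_add]
  rw [abs_le]
  constructor
  · -- lower bound
    rw [hy]
    have : (Y : ℝ) - E ≤ 2 ^ 203 * (8759007823163055259539 ^ k / (10 ^ 24) ^ k) /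
        G (a * k + 1) := by
      rw [le_div_iff₀ hG, mul_div_assoc', le_div_iff₀ hp1]
      rcases le_total ((Y : ℝ) - E) 0 with hneg | hnn
      · have h3 : ((Y : ℝ) - E) * G (a * k + 1) * (10 ^ 24) ^ k ≤ 0 := by
          apply mul_nonpos_of_nonpos_of_nonneg _ hp1.le
          exact mul_nonpos_of_nonpos_of_nonneg hneg hG.le
        refine h3.trans ?_
        positivity
      · have h3 : ((Y : ℝ) - E) * G (a * k + 1) * (10 ^ 24) ^ k ≤
            ((Y : ℝ) - E) * (U / 2 ^ 100 + 1 / 40) * (10 ^ 24) ^ k := by gcongr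
        refine h3.trans ?_
        have h4 : ((Y : ℝ) - E) * (U / 2 ^ 100 + 1 / 40) * (10 ^ 24) ^ k =
            (((Y : ℝ) - E) * ((40 * U + 2 ^ 100) * (10 ^ 24) ^ k)) / (40 * 2 ^ 100) := by
          field_simp
        rw [h4, div_le_iff₀ (by positivity)]
        refine c2'.trans (le_of_eq ?_)
        rw [e303]
        ring
    linarith
  · -- upper bound
    rw [hy]
    have : 2 ^ 203 * (8759007823163055259539 ^ k / (10 ^ 24) ^ k) / G (a * k + 1) ≤
        (Y : ℝ) + E := by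
      rw [div_le_iff₀ hG, mul_div_assoc', div_le_iff₀ hp1]
      have h3 : ((Y : ℝ) + E) * (L / 2 ^ 100) * (10 ^ 24) ^ k ≤
          ((Y : ℝ) + E) * G (a * k + 1) * (10 ^ 24) ^ k := by gcongr
      refine le_trans ?_ h3
      have h4 : ((Y : ℝ) + E) * (L / 2 ^ 100) * (10 ^ 24) ^ k =
          (((Y : ℝ) + E) * (L * (10 ^ 24) ^ k)) / 2 ^ 100 := by
        field_simp
      rw [h4, le_div_iff₀ (by positivity)]
      refine le_trans (le_of_eq ?_) c1'
      rw [e303]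
      ring
    linarith

theorem z_bound {pa pb E k Y Z : ℕ} {a : ℝ} (ha1 : (pa : ℝ) / 10 ^ 15 ≤ a)
    (ha2 : a ≤ (pb : ℝ) / 10 ^ 15) (h1 : 168 / 100 ≤ a) (h2 : a ≤ 17 / 10) (hk : k ≤ 28)
    (hc : chkY pa pb E k Y = true) (hd : chkZ pa pb E k Y Z = true) :
    |1 / (a * k + 1) * y a k * 2 ^ 80 - (Z : ℝ)| ≤ (E : ℝ) + 1 := by
  have hy := y_bound ha1 ha2 h1 h2 hk hc
  unfold chkZ at hd
  simp only [Bool.and_eq_true, Nat.ble_eq] at hd
  obtain ⟨c1, c2⟩ := hd
  have ha : 0 < a := by linarith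
  have hk0 : (0 : ℝ) ≤ k := by positivity
  have hs := arg_pos ha k
  have c1' : ((Y : ℝ) + E) ≤ (Z + E + 1) * ((pa : ℝ) / 10 ^ 15 * k + 1) := by
    have h3 : ((Y : ℝ) + E) * 10 ^ 15 ≤ (Z + E + 1) * (pa * k + 10 ^ 15) := by exact_mod_cast c1
    have h4 : (Z + E + 1 : ℝ) * ((pa : ℝ) / 10 ^ 15 * k + 1) =
        ((Z + E + 1) * (pa * k + 10 ^ 15)) / 10 ^ 15 := by field_simp
    rw [h4, le_div_iff₀ (by positivity)]
    exact h3
  rw [abs_le] at hy ⊢
  obtain ⟨hy1, hy2⟩ := hy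
  have e : 1 / (a * k + 1) * y a k * 2 ^ 80 = (y a k * 2 ^ 80) / (a * k + 1) := by ring
  have hyp := y_pos ha k
  rw [e]
  have hZE : (0 : ℝ) ≤ Z + E + 1 := by positivity
  constructor
  · have : (Z : ℝ) - E - 1 ≤ y a k * 2 ^ 80 / (a * k + 1) := by
      rcases le_total ((Z : ℝ) - E - 1) 0 with hneg | hnn
      · exact hneg.trans (div_nonneg (mul_nonneg hyp.le (by norm_num)) hs.le)
      · rw [le_div_iff₀ hs]
        have hnat : ((Z - E - 1 : ℕ) : ℝ) = (Z : ℝ) - E - 1 := by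
          have h5 : E + 1 ≤ Z := by
            have : ((E + 1 : ℕ) : ℝ) ≤ Z := by
              push_cast
              linarith
            exact_mod_cast this
          rw [Nat.sub_sub, Nat.cast_sub h5]
          push_cast
          ring
        have h3 : ((Z - E - 1 : ℕ) : ℝ) * (pb * k + 10 ^ 15) ≤ ((Y - E : ℕ) : ℝ) * 10 ^ 15 := by
          exact_mod_cast c2
        have h6 : ((Y - E : ℕ) : ℝ) ≤ y a k * 2 ^ 80 := by
          rcases le_total E Y with hEY | hEY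
          · rw [Nat.cast_sub hEY]
            linarith
          · rw [Nat.sub_eq_zero_of_le hEY, Nat.cast_zero]
            exact mul_nonneg hyp.le (by norm_num)
        rw [hnat] at h3
        have h7 : ((Z : ℝ) - E - 1) * ((pb : ℝ) / 10 ^ 15 * k + 1) ≤ ((Y - E : ℕ) : ℝ) := by
          have h4 : ((Z : ℝ) - E - 1) * ((pb : ℝ) / 10 ^ 15 * k + 1) =
              (((Z : ℝ) - E - 1) * (pb * k + 10 ^ 15)) / 10 ^ 15 := by field_simp
          rw [h4, div_le_iff₀ (by positivity)]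
          exact h3
        refine le_trans ?_ (h7.trans h6)
        apply mul_le_mul_of_nonneg_left _ hnn
        have := mul_le_mul_of_nonneg_right ha2 hk0
        linarith
    linarith
  · have : y a k * 2 ^ 80 / (a * k + 1) ≤ (Z : ℝ) + E + 1 := by
      rw [div_le_iff₀ hs]
      have h3 : (Z + E + 1 : ℝ) * ((pa : ℝ) / 10 ^ 15 * k + 1) ≤ (Z + E + 1) * (a * k + 1) := by
        apply mul_le_mul_of_nonneg_left _ hZE
        have := mul_le_mul_of_nonneg_right ha1 hk0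
        linarith
      linarith
    linarith

/-- the sums of the approximate terms -/
theorem approx {a u σ : ℝ} {w : ℕ → ℝ} {X : ℕ → ℕ} {E : ℕ → ℝ} {Q : ℕ → ℤ × ℤ}
    (hX : ∀ k < 28, |w k * y a k * 2 ^ 80 - X k| ≤ E k)
    (hQ : ∀ k < 28, ‖vv a u ^ k - gc (Q k) / ((2 ^ 100 : ℝ) : ℂ)‖ ≤ σ * k)
    (hu : ∀ k < 28, Real.exp u ^ k ≤ 101 / 100) :
    ‖∑ k ∈ Finset.range 28, (w k : ℂ) * ee a u k -
      (∑ k ∈ Finset.range 28, (X k : ℂ) * gc (Q k)) / 2 ^ 180‖ ≤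
      (101 / 100 * ∑ k ∈ Finset.range 28, E k +
        σ * ∑ k ∈ Finset.range 28, (k : ℝ) * X k) / 2 ^ 80 := by
  have e : ∑ k ∈ Finset.range 28, (w k : ℂ) * ee a u k -
      (∑ k ∈ Finset.range 28, (X k : ℂ) * gc (Q k)) / 2 ^ 180 =
      ∑ k ∈ Finset.range 28, (((w k * y a k * 2 ^ 80 - X k : ℝ) : ℂ) / 2 ^ 80 * vv a u ^ k +
        (X k : ℂ) / 2 ^ 80 * (vv a u ^ k - gc (Q k) / ((2 ^ 100 : ℝ) : ℂ))) := by
    rw [Finset.sum_div, ← Finset.sum_sub_distrib]
    apply Finset.sum_congr rfl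
    intro k _
    unfold ee
    push_cast
    field_simp
    ring
  rw [e]
  refine (norm_sum_le _ _).trans ?_
  have e2 : (101 / 100 * ∑ k ∈ Finset.range 28, E k +
        σ * ∑ k ∈ Finset.range 28, (k : ℝ) * X k) / 2 ^ 80 =
      ∑ k ∈ Finset.range 28, (E k / 2 ^ 80 * (101 / 100) + X k / 2 ^ 80 * (σ * k)) := by
    rw [Finset.mul_sum, Finset.mul_sum, ← Finset.sum_add_distrib, Finset.sum_div]
    apply Finset.sum_congr rfl
    intro k _
    ring
  rw [e2]
  apply Finset.sum_le_sum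
  intro k hk
  have hk' := Finset.mem_range.1 hk
  have n80 : ‖(2 ^ 80 : ℂ)‖ = 2 ^ 80 := by
    rw [norm_pow]
    simp
  refine (norm_add_le _ _).trans (add_le_add ?_ ?_)
  · rw [norm_mul, norm_pow, norm_vv, norm_div, n80, Complex.norm_real, Real.norm_eq_abs]
    have h1 := hX k hk'
    have h2 := hu k hk'
    have h3 : 0 ≤ E k := (abs_nonneg _).trans h1
    gcongr
  · rw [norm_mul, norm_div, n80, Complex.norm_natCast]
    have h1 := hQ k hk'
    gcongr

end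

end Pool.Agent.H30ML
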