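import Pool.Agent.H30ML.Enc

/-!
The zero.
-/

set_option autoImplicit false

namespace Pool.Agent.H30ML

noncomputable section

open Complex Real Pool.Agent.H30KAM Set

/-- an approximate sum -/
def c10 : ℂ := ((0.2830717243168560581966 : ℝ) : ℂ) + ((0.3400570757756228888510 : ℝ) : ℂ) * I

/-- an approximate sum -/
def c11 : ℂ := ((1.2279510476315139844976 : ℝ) : ℂ) + (((-0.9275009443255935685046) : ℝ) : ℂ) * I

/-- an approximate sum -/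
def c12 : ℂ := (((-2.5287014093319585204553) : ℝ) : ℂ) + (((-4.1037962994665175655966) : ℝ) : ℂ) * I

/-- an approximate sum -/
def c13 : ℂ := (((-0.0556998188867978588401) : ℝ) : ℂ) + ((0.0510126623833532608053 : ℝ) : ℂ) * I

/-- an approximate sum -/
def c20 : ℂ := ((0.2830717243169242756459 : ℝ) : ℂ) + ((0.3400570757755609827528 : ℝ) : ℂ) * I

/-- an approximate sum -/
def c21 : ℂ := ((1.2279510476313535453367 : ℝ) : ℂ) + (((-0.9275009443257905476035) : ℝ) : ℂ) * I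

/-- an approximate sum -/
def c23 : ℂ := (((-0.0556998188867880743819) : ℝ) : ℂ) + ((0.0510126623833634819976 : ℝ) : ℂ) * I

theorem near {A B : ℤ} {x y e : ℝ} (h1 : |(A : ℝ) / 2 ^ 180 - x| ≤ e)
    (h2 : |(B : ℝ) / 2 ^ 180 - y| ≤ e) :
    ‖gc (A, B) / 2 ^ 180 - ((x : ℂ) + (y : ℂ) * I)‖ ≤ e + e := by
  have e1 : gc (A, B) / 2 ^ 180 - ((x : ℂ) + (y : ℂ) * I) =
      (((A : ℝ) / 2 ^ 180 - x : ℝ) : ℂ) + (((B : ℝ) / 2 ^ 180 - y : ℝ) : ℂ) * I := by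
    unfold gc
    push_cast
    ring
  rw [e1]
  exact (norm_re_im _ _).trans (add_le_add h1 h2)

theorem near10 : ‖gc (dotg Y1 Qa 28) / 2 ^ 180 - c10‖ ≤ 2e-22 := by
  rw [sg10]
  unfold c10
  refine (near (e := 1e-22) ?_ ?_).trans (by norm_num)
  · rw [abs_le]
    constructor <;> norm_num
  · rw [abs_le]
    constructor <;> norm_num

theorem near11 : ‖gc (dotg (fun k => k * Y1 k) Qa 28) / 2 ^ 180 - c11‖ ≤ 2e-22 := by
  rw [sg11]
  unfold c11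
  refine (near (e := 1e-22) ?_ ?_).trans (by norm_num)
  · rw [abs_le]
    constructor <;> norm_num
  · rw [abs_le]
    constructor <;> norm_num

theorem near12 : ‖gc (dotg (fun k => k ^ 2 * Y1 k) Qa 28) / 2 ^ 180 - c12‖ ≤ 2e-22 := by
  rw [sg12]
  unfold c12
  refine (near (e := 1e-22) ?_ ?_).trans (by norm_num)
  · rw [abs_le]
    constructor <;> norm_num
  · rw [abs_le]
    constructor <;> norm_num

theorem near13 : ‖gc (dotg Z1 Qa 28) / 2 ^ 180 - c13‖ ≤ 2e-22 := by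
  rw [sg13]
  unfold c13
  refine (near (e := 1e-22) ?_ ?_).trans (by norm_num)
  · rw [abs_le]
    constructor <;> norm_num
  · rw [abs_le]
    constructor <;> norm_num

theorem near20 : ‖gc (dotg Y2 Qb 28) / 2 ^ 180 - c20‖ ≤ 2e-22 := by
  rw [sg20]
  unfold c20
  refine (near (e := 1e-22) ?_ ?_).trans (by norm_num)
  · rw [abs_le]
    constructor <;> norm_num
  · rw [abs_le]
    constructor <;> norm_num

theorem near21 : ‖gc (dotg (fun k => k * Y2 k) Qb 28) / 2 ^ 180 - c21‖ ≤ 2e-22 := by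
  rw [sg21]
  unfold c21
  refine (near (e := 1e-22) ?_ ?_).trans (by norm_num)
  · rw [abs_le]
    constructor <;> norm_num
  · rw [abs_le]
    constructor <;> norm_num

theorem near23 : ‖gc (dotg Z2 Qb 28) / 2 ^ 180 - c23‖ ≤ 2e-22 := by
  rw [sg23]
  unfold c23
  refine (near (e := 1e-22) ?_ ?_).trans (by norm_num)
  · rw [abs_le]
    constructor <;> norm_num
  · rw [abs_le]
    constructor <;> norm_num

theorem tri {x y z : ℂ} {a b c : ℝ} (h1 : ‖x - y‖ ≤ a) (h2 : ‖y - z‖ ≤ b) (h : a + b ≤ c) :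
    ‖x - z‖ ≤ c := by
  have e : x - z = (x - y) + (y - z) := by ring
  rw [e]
  exact (norm_add_le _ _).trans ((add_le_add h1 h2).trans h)

theorem sn_real {X : ℕ → ℕ} {b : ℕ} (h : dotn X 28 ≤ b * 2 ^ 80) :
    ((dotn X 28 : ℕ) : ℝ) ≤ b * 2 ^ 80 := by exact_mod_cast h

theorem n0_1 : ((dotn Y1 28 : ℕ) : ℝ) ≤ (333 : ℕ) * 2 ^ 80 := sn_real sn10

theorem n1_1 : ((dotn (fun k => k * Y1 k) 28 : ℕ) : ℝ) ≤ (1263 : ℕ) * 2 ^ 80 := sn_real sn11

theorem n2_1 : ((dotn (fun k => k ^ 2 * Y1 k) 28 : ℕ) : ℝ) ≤ (5428 : ℕ) * 2 ^ 80 := sn_real sn12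

theorem n3_1 : ((dotn Z1 28 : ℕ) : ℝ) ≤ (52 : ℕ) * 2 ^ 80 := sn_real sn13

theorem n0_2 : ((dotn Y2 28 : ℕ) : ℝ) ≤ (333 : ℕ) * 2 ^ 80 := sn_real sn20

theorem n1_2 : ((dotn (fun k => k * Y2 k) 28 : ℕ) : ℝ) ≤ (1263 : ℕ) * 2 ^ 80 := sn_real sn21

theorem n3_2 : ((dotn Z2 28 : ℕ) : ℝ) ≤ (52 : ℕ) * 2 ^ 80 := sn_real sn23

theorem cb_u {a u : ℝ} (ha : a ∈ Icc a1 a2) (hu : |u| ≤ 1e-6) :
    CB a u ((2 * |u| + 3.15e-14) * (101 / 100) + 1.8e-21) Eu Y1 Z1 Qa where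
  d := dom ha (lt_of_le_of_lt hu (by norm_num))
  h28 := y28 ha
  hy := fun k hk => yu ha hk.le
  hz := fun k hk => zu ha hk.le
  hQ := fun k hk => q_all ha hu hk
  hu := fun k hk => eu_pow hu k hk

theorem cb_1 : CB a1 0 1.8e-21 110 Y1 Z1 Qa where
  d := dom ⟨le_rfl, a12⟩ (by norm_num)
  h28 := y28 ⟨le_rfl, a12⟩
  hy := fun k hk => y1 hk.le
  hz := fun k hk => (z1 hk.le).trans (by norm_num)
  hQ := fun k hk => qa_pow hk
  hu := fun k hk => eu_pow (by norm_num) k hk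

theorem cb_2 : CB a2 0 1.8e-21 110 Y2 Z2 Qb where
  d := dom ⟨a12, le_rfl⟩ (by norm_num)
  h28 := y28 ⟨a12, le_rfl⟩
  hy := fun k hk => y2 hk.le
  hz := fun k hk => (z2 hk.le).trans (by norm_num)
  hQ := fun k hk => qb_pow hk
  hu := fun k hk => eu_pow (by norm_num) k hk

theorem step {σ E d c : ℝ} {n b : ℕ} {X Y Z : ℂ}
    (h1 : ‖X - Y‖ ≤ (101 / 100 * (d * E) + σ * n) / 2 ^ 80 + 3e-19) (h2 : ‖Y - Z‖ ≤ 2e-22)
    (hn : (n : ℝ) ≤ b * 2 ^ 80) (hσ : 0 ≤ σ)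
    (h : 101 / 100 * (d * E) / 2 ^ 80 + σ * b + 3e-19 + 2e-22 ≤ c) : ‖X - Z‖ ≤ c := by
  apply tri h1 h2
  refine le_trans ?_ h
  have h1 : σ * n ≤ σ * (b * 2 ^ 80) := mul_le_mul_of_nonneg_left hn hσ
  have h2 : (101 / 100 * (d * E) + σ * n) / 2 ^ 80 ≤
      (101 / 100 * (d * E) + σ * (b * 2 ^ 80)) / 2 ^ 80 := by gcongr
  have h3 : (101 / 100 * (d * E) + σ * (b * 2 ^ 80)) / 2 ^ 80 =
      101 / 100 * (d * E) / 2 ^ 80 + σ * b := by
    field_simp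
  linarith

theorem en_1 : ‖Sw w0 a1 0 - c10‖ ≤ 1e-18 ∧ ‖Sw w1 a1 0 - c11‖ ≤ 3e-18 ∧
    ‖Sw (wc a1) a1 0 - c13‖ ≤ 4e-19 := by
  refine ⟨step cb_1.s0 near10 n0_1 (by norm_num) (by norm_num),
    step cb_1.s1 near11 n1_1 (by norm_num) (by norm_num),
    step cb_1.sc near13 n3_1 (by norm_num) (by norm_num)⟩

theorem en_2 : ‖Sw w0 a2 0 - c20‖ ≤ 1e-18 ∧ ‖Sw w1 a2 0 - c21‖ ≤ 3e-18 ∧
    ‖Sw (wc a2) a2 0 - c23‖ ≤ 4e-19 := by
  refine ⟨step cb_2.s0 near20 n0_2 (by norm_num) (by norm_num),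
    step cb_2.s1 near21 n1_2 (by norm_num) (by norm_num),
    step cb_2.sc near23 n3_2 (by norm_num) (by norm_num)⟩

theorem en_u {a : ℝ} (ha : a ∈ Icc a1 a2) : ‖Sw w0 a 0 - c10‖ ≤ 1.6e-10 ∧
    ‖Sw w1 a 0 - c11‖ ≤ 2e-9 ∧ ‖Sw (wc a) a 0 - c13‖ ≤ 1.5e-10 := by
  have h := cb_u ha (u := 0) (by norm_num)
  rw [abs_zero] at h
  refine ⟨step h.s0 near10 n0_1 (by norm_num) (by unfold Eu; norm_num),
    step h.s1 near11 n1_1 (by norm_num) (by unfold Eu; norm_num),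
    step h.sc near13 n3_1 (by norm_num) (by unfold Eu; norm_num)⟩

theorem CB.mono {a u σ σ' E : ℝ} {Y Z : ℕ → ℕ} {Q : ℕ → ℤ × ℤ} (h : CB a u σ E Y Z Q)
    (hσ : σ ≤ σ') : CB a u σ' E Y Z Q where
  d := h.d
  h28 := h.h28
  hy := h.hy
  hz := h.hz
  hQ := fun k hk => (h.hQ k hk).trans (mul_le_mul_of_nonneg_right hσ (by positivity))
  hu := h.hu

theorem en_w {a u : ℝ} (ha : a ∈ Icc a1 a2) (hu : |u| ≤ 1e-6) : ‖Sw w0 a u - c10‖ ≤ 6.74e-4 ∧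
    ‖Sw w1 a u - c11‖ ≤ 2.56e-3 ∧ ‖Sw w2 a u - c12‖ ≤ 1.1e-2 ∧
    ‖Sw (wc a) a u - c13‖ ≤ 1.06e-4 := by
  have h := (cb_u ha hu).mono (σ' := 2.021e-6) (by
    calc (2 * |u| + 3.15e-14) * (101 / 100) + 1.8e-21 ≤
        (2 * 1e-6 + 3.15e-14) * (101 / 100) + 1.8e-21 := by gcongr
      _ ≤ _ := by norm_num)
  refine ⟨step h.s0 near10 n0_1 (by norm_num) (by unfold Eu; norm_num),
    step h.s1 near11 n1_1 (by norm_num) (by unfold Eu; norm_num),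
    step h.s2 near12 n2_1 (by norm_num) (by unfold Eu; norm_num),
    step h.sc near13 n3_1 (by norm_num) (by unfold Eu; norm_num)⟩

/-- the function -/
def FF (a u : ℝ) : ℂ := Sw w0 a u ^ 2 - a * (Sw w1 a u * Sw (wc a) a u)

/-- its derivative -/
def GG (a u : ℝ) : ℂ :=
  Sw w1 a u * (Sw w0 a u + Sw (wc a) a u) - a * (Sw w2 a u * Sw (wc a) a u)

theorem prod_err {x y x' y' : ℂ} {e e' n n' : ℝ} (h : ‖x - x'‖ ≤ e) (h' : ‖y - y'‖ ≤ e')
    (hn : ‖x'‖ ≤ n) (hn' : ‖y'‖ ≤ n') : ‖x * y - x' * y'‖ ≤ n * e' + n' * e + e * e' := by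
  have e1 : x * y - x' * y' = x' * (y - y') + y' * (x - x') + (x - x') * (y - y') := by ring
  rw [e1]
  refine (norm_add_le _ _).trans (add_le_add ((norm_add_le _ _).trans (add_le_add ?_ ?_)) ?_)
  · rw [norm_mul]
    exact mul_le_mul hn h' (norm_nonneg _) ((norm_nonneg _).trans hn)
  · rw [norm_mul]
    exact mul_le_mul hn' h (norm_nonneg _) ((norm_nonneg _).trans hn')
  · rw [norm_mul]
    exact mul_le_mul h h' (norm_nonneg _) ((norm_nonneg _).trans h)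

theorem scale_err {x x' : ℂ} {a a' e ea n : ℝ} (h : ‖x - x'‖ ≤ e) (hn : ‖x'‖ ≤ n)
    (ha : |a| ≤ 17 / 10) (haa : |a - a'| ≤ ea) : ‖a * x - a' * x'‖ ≤ 17 / 10 * e + ea * n := by
  have e1 : a * x - a' * x' = a * (x - x') + ((a - a' : ℝ) : ℂ) * x' := by
    push_cast
    ring
  rw [e1]
  refine (norm_add_le _ _).trans (add_le_add ?_ ?_)
  · rw [norm_mul, Complex.norm_real, Real.norm_eq_abs]
    exact mul_le_mul ha h (norm_nonneg _) (by norm_num)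
  · rw [norm_mul, Complex.norm_real, Real.norm_eq_abs]
    exact mul_le_mul haa hn (norm_nonneg _) ((abs_nonneg _).trans haa)

theorem nc10 : ‖c10‖ ≤ 0.6233 := by
  unfold c10
  refine (norm_re_im _ _).trans ?_
  norm_num [abs_of_pos, abs_of_neg]

theorem nc11 : ‖c11‖ ≤ 2.1557 := by
  unfold c11
  refine (norm_re_im _ _).trans ?_
  norm_num [abs_of_pos, abs_of_neg]

theorem nc12 : ‖c12‖ ≤ 6.6327 := by
  unfold c12
  refine (norm_re_im _ _).trans ?_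
  norm_num [abs_of_pos, abs_of_neg]

theorem nc13 : ‖c13‖ ≤ 0.1069 := by
  unfold c13
  refine (norm_re_im _ _).trans ?_
  norm_num [abs_of_pos, abs_of_neg]

theorem nc20 : ‖c20‖ ≤ 0.6233 := by
  unfold c20
  refine (norm_re_im _ _).trans ?_
  norm_num [abs_of_pos, abs_of_neg]

theorem nc21 : ‖c21‖ ≤ 2.1557 := by
  unfold c21
  refine (norm_re_im _ _).trans ?_
  norm_num [abs_of_pos, abs_of_neg]

theorem nc23 : ‖c23‖ ≤ 0.1069 := by
  unfold c23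
  refine (norm_re_im _ _).trans ?_
  norm_num [abs_of_pos, abs_of_neg]

theorem F_err {s0 s1 s3 d0 d1 d3 : ℂ} {a a' e0 e1 e3 ea n0 n1 n3 : ℝ} (h0 : ‖s0 - d0‖ ≤ e0)
    (h1 : ‖s1 - d1‖ ≤ e1) (h3 : ‖s3 - d3‖ ≤ e3) (k0 : ‖d0‖ ≤ n0) (k1 : ‖d1‖ ≤ n1)
    (k3 : ‖d3‖ ≤ n3) (ha : |a| ≤ 17 / 10) (haa : |a - a'| ≤ ea) {c : ℝ}
    (hc : (n0 * e0 + n0 * e0 + e0 * e0) +
      (17 / 10 * (n1 * e3 + n3 * e1 + e1 * e3) + ea * (n1 * n3)) ≤ c) :
    ‖(s0 ^ 2 - a * (s1 * s3)) - (d0 ^ 2 - a' * (d1 * d3))‖ ≤ c := by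
  have e : (s0 ^ 2 - a * (s1 * s3)) - (d0 ^ 2 - a' * (d1 * d3)) =
      (s0 * s0 - d0 * d0) - (a * (s1 * s3) - a' * (d1 * d3)) := by ring
  rw [e]
  have kk : ‖d1 * d3‖ ≤ n1 * n3 := by
    rw [norm_mul]
    exact mul_le_mul k1 k3 (norm_nonneg _) ((norm_nonneg _).trans k1)
  exact ((norm_sub_le _ _).trans (add_le_add (prod_err h0 h0 k0 k0)
    (scale_err (prod_err h1 h3 k1 k3) kk ha haa))).trans hc

theorem G_err {s0 s1 s2 s3 d0 d1 d2 d3 : ℂ} {a a' e0 e1 e2 e3 ea n1 n2 n3 n4 : ℝ}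
    (h0 : ‖s0 - d0‖ ≤ e0) (h1 : ‖s1 - d1‖ ≤ e1) (h2 : ‖s2 - d2‖ ≤ e2) (h3 : ‖s3 - d3‖ ≤ e3)
    (k1 : ‖d1‖ ≤ n1) (k2 : ‖d2‖ ≤ n2) (k3 : ‖d3‖ ≤ n3) (k4 : ‖d0 + d3‖ ≤ n4)
    (ha : |a| ≤ 17 / 10) (haa : |a - a'| ≤ ea) {c : ℝ}
    (hc : (n1 * (e0 + e3) + n4 * e1 + e1 * (e0 + e3)) +
      (17 / 10 * (n2 * e3 + n3 * e2 + e2 * e3) + ea * (n2 * n3)) ≤ c) :
    ‖(s1 * (s0 + s3) - a * (s2 * s3)) - (d1 * (d0 + d3) - a' * (d2 * d3))‖ ≤ c := by
  have e : (s1 * (s0 + s3) - a * (s2 * s3)) - (d1 * (d0 + d3) - a' * (d2 * d3)) =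
      (s1 * (s0 + s3) - d1 * (d0 + d3)) - (a * (s2 * s3) - a' * (d2 * d3)) := by ring
  rw [e]
  have h03 : ‖(s0 + s3) - (d0 + d3)‖ ≤ e0 + e3 := by
    have e' : (s0 + s3) - (d0 + d3) = (s0 - d0) + (s3 - d3) := by ring
    rw [e']
    exact (norm_add_le _ _).trans (add_le_add h0 h3)
  have kk : ‖d2 * d3‖ ≤ n2 * n3 := by
    rw [norm_mul]
    exact mul_le_mul k2 k3 (norm_nonneg _) ((norm_nonneg _).trans k2)
  exact ((norm_sub_le _ _).trans (add_le_add (prod_err h1 h03 k1 k4)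
    (scale_err (prod_err h2 h3 k2 k3) kk ha haa))).trans hc

/-- the approximate derivative -/
def DD : ℂ := ((0.05208 : ℝ) : ℂ) + ((0.1016 : ℝ) : ℂ) * I

theorem k4 : ‖c10 + c13‖ ≤ 0.62 := by
  have e : c10 + c13 = (((0.2830717243168560581966 + (-0.0556998188867978588401) : ℝ)) : ℂ) +
      (((0.3400570757756228888510 + 0.0510126623833532608053 : ℝ)) : ℂ) * I := by
    unfold c10 c13
    push_cast
    ring
  rw [e]
  refine (norm_re_im _ _).trans ?_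
  norm_num [abs_of_pos, abs_of_neg]

theorem expl (x0 y0 x1 y1 x3 y3 a : ℝ) :
    ((x0 : ℂ) + (y0 : ℂ) * I) ^ 2 - a * (((x1 : ℂ) + (y1 : ℂ) * I) * ((x3 : ℂ) + (y3 : ℂ) * I)) =
    ((x0 ^ 2 - y0 ^ 2 - a * (x1 * x3 - y1 * y3) : ℝ) : ℂ) +
      ((2 * x0 * y0 - a * (x1 * y3 + y1 * x3) : ℝ) : ℂ) * I := by
  push_cast
  linear_combination ((y0 : ℂ) ^ 2 - a * y1 * y3) * I_mul_I

theorem re_im (x y : ℝ) : ((x : ℂ) + (y : ℂ) * I).re = x ∧ ((x : ℂ) + (y : ℂ) * I).im = y := by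
  simp

theorem F1_near : ‖FF a1 0 - (c10 ^ 2 - a1 * (c11 * c13))‖ ≤ 4e-18 := by
  obtain ⟨h0, h1, h3⟩ := en_1
  exact F_err h0 h1 h3 nc10 nc11 nc13 (by unfold a1; norm_num [abs_of_pos]) (ea := 0) (by simp)
    (by norm_num)

theorem F2_near : ‖FF a2 0 - (c20 ^ 2 - a2 * (c21 * c23))‖ ≤ 4e-18 := by
  obtain ⟨h0, h1, h3⟩ := en_2
  exact F_err h0 h1 h3 nc20 nc21 nc23 (by unfold a2; norm_num [abs_of_pos]) (ea := 0) (by simp)
    (by norm_num)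

theorem a_abs {a : ℝ} (ha : a ∈ Icc a1 a2) : |a| ≤ 17 / 10 := by
  have h1 : 0 ≤ a := by linarith [ha.1, a1_bd]
  rw [abs_of_nonneg h1]
  exact ha.2.trans a2_bd

theorem a_diff {a : ℝ} (ha : a ∈ Icc a1 a2) : |a - a1| ≤ 2e-14 := by
  rw [abs_of_nonneg (by linarith [ha.1])]
  have h4 : a2 - a1 ≤ 2e-14 := by unfold a1 a2; norm_num
  linarith [ha.2]

theorem Fu_near {a : ℝ} (ha : a ∈ Icc a1 a2) :
    ‖FF a 0 - (c10 ^ 2 - a1 * (c11 * c13))‖ ≤ 1.3e-9 := by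
  obtain ⟨h0, h1, h3⟩ := en_u ha
  exact F_err h0 h1 h3 nc10 nc11 nc13 (a_abs ha) (a_diff ha) (by norm_num)

theorem expl1 : ∃ x y : ℝ, c10 ^ 2 - a1 * (c11 * c13) = (x : ℂ) + (y : ℂ) * I ∧
    |x + 6.5576e-15| ≤ 1e-18 ∧ |y - 7.523e-16| ≤ 1e-18 := by
  refine ⟨_, _, expl _ _ _ _ _ _ _, ?_, ?_⟩
  · unfold a1
    rw [abs_le]
    constructor <;> norm_num
  · unfold a1
    rw [abs_le]
    constructor <;> norm_num

theorem expl2 : ∃ x y : ℝ, c20 ^ 2 - a2 * (c21 * c23) = (x : ℂ) + (y : ℂ) * I ∧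
    |x - 6.4075e-15| ≤ 1e-18 ∧ |y + 7.351e-16| ≤ 1e-18 := by
  refine ⟨_, _, expl _ _ _ _ _ _ _, ?_, ?_⟩
  · unfold a2
    rw [abs_le]
    constructor <;> norm_num
  · unfold a2
    rw [abs_le]
    constructor <;> norm_num

theorem conj_DD (z : ℂ) : ((starRingEnd ℂ) DD * z).re = 0.05208 * z.re + 0.1016 * z.im ∧
    ((starRingEnd ℂ) DD * z).im = 0.05208 * z.im - 0.1016 * z.re := by
  unfold DD
  constructor
  · simp
  · simp
    ring

theorem norm_DD : 0.114 ≤ ‖DD‖ ∧ ‖DD‖ ≤ 0.1142 := by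
  have h : ‖DD‖ = √(0.05208 ^ 2 + 0.1016 ^ 2) := by
    rw [Complex.norm_eq_sqrt_sq_add_sq]
    unfold DD
    rw [(re_im _ _).1, (re_im _ _).2]
  rw [h]
  constructor
  · apply Real.le_sqrt_of_sq_le
    norm_num
  · apply Real.sqrt_le_iff.2
    norm_num

theorem re_im_near {z : ℂ} {x y e : ℝ} (h : ‖z - ((x : ℂ) + (y : ℂ) * I)‖ ≤ e) :
    |z.re - x| ≤ e ∧ |z.im - y| ≤ e := by
  have h1 := Complex.abs_re_le_norm (z - ((x : ℂ) + (y : ℂ) * I))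
  have h2 := Complex.abs_im_le_norm (z - ((x : ℂ) + (y : ℂ) * I))
  rw [Complex.sub_re, (re_im x y).1] at h1
  rw [Complex.sub_im, (re_im x y).2] at h2
  exact ⟨h1.trans h, h2.trans h⟩

theorem F1_val : |(FF a1 0).re + 6.5576e-15| ≤ 6e-18 ∧ |(FF a1 0).im - 7.523e-16| ≤ 6e-18 := by
  obtain ⟨x, y, h, hx, hy⟩ := expl1
  have h1 := F1_near
  rw [h] at h1
  obtain ⟨h2, h3⟩ := re_im_near h1
  rw [abs_le] at h2 h3 hx hy
  refine ⟨abs_le.2 ⟨?_, ?_⟩, abs_le.2 ⟨?_, ?_⟩⟩ <;> norm_num at * <;>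
    linarith [h2.1, h2.2, h3.1, h3.2, hx.1, hx.2, hy.1, hy.2]

theorem F2_val : |(FF a2 0).re - 6.4075e-15| ≤ 6e-18 ∧ |(FF a2 0).im + 7.351e-16| ≤ 6e-18 := by
  obtain ⟨x, y, h, hx, hy⟩ := expl2
  have h1 := F2_near
  rw [h] at h1
  obtain ⟨h2, h3⟩ := re_im_near h1
  rw [abs_le] at h2 h3 hx hy
  refine ⟨abs_le.2 ⟨?_, ?_⟩, abs_le.2 ⟨?_, ?_⟩⟩ <;> norm_num at * <;>
    linarith [h2.1, h2.2, h3.1, h3.2, hx.1, hx.2, hy.1, hy.2]

theorem Fu_val {a : ℝ} (ha : a ∈ Icc a1 a2) : ‖FF a 0‖ ≤ 2e-9 := by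
  obtain ⟨x, y, h, hx, hy⟩ := expl1
  have h1 := Fu_near ha
  rw [h] at h1
  have h2 : ‖(x : ℂ) + (y : ℂ) * I‖ ≤ 1e-13 := by
    refine (norm_re_im x y).trans ?_
    rw [abs_le] at hx hy
    have h3 : |x| ≤ 5e-14 := by
      rw [abs_le]
      constructor <;> norm_num at * <;> linarith [hx.1, hx.2]
    have h4 : |y| ≤ 5e-14 := by
      rw [abs_le]
      constructor <;> norm_num at * <;> linarith [hy.1, hy.2]
    norm_num at *
    linarith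
  have h3 : ‖FF a 0‖ ≤ ‖FF a 0 - ((x : ℂ) + (y : ℂ) * I)‖ + ‖(x : ℂ) + (y : ℂ) * I‖ := by
    have := norm_add_le (FF a 0 - ((x : ℂ) + (y : ℂ) * I)) ((x : ℂ) + (y : ℂ) * I)
    simpa using this
  refine h3.trans ((add_le_add h1 h2).trans ?_)
  norm_num

theorem G_near {a u : ℝ} (ha : a ∈ Icc a1 a2) (hu : |u| ≤ 1e-6) :
    ‖GG a u - DD‖ ≤ 0.0068 := by
  obtain ⟨h0, h1, h2, h3⟩ := en_w ha hu
  have h4 : ‖GG a u - (c11 * (c10 + c13) - a1 * (c12 * c13))‖ ≤ 0.0067 :=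
    G_err h0 h1 h2 h3 nc11 nc12 nc13 k4 (a_abs ha) (a_diff ha) (by norm_num)
  have h5 : ‖(c11 * (c10 + c13) - a1 * (c12 * c13)) - DD‖ ≤ 0.0001 := by
    unfold c10 c11 c12 c13 DD a1
    have e : ∀ (x0 y0 x1 y1 x2 y2 x3 y3 a dx dy : ℝ),
        ((x1 : ℂ) + (y1 : ℂ) * I) * (((x0 : ℂ) + (y0 : ℂ) * I) + ((x3 : ℂ) + (y3 : ℂ) * I)) -
          (a : ℂ) * (((x2 : ℂ) + (y2 : ℂ) * I) * ((x3 : ℂ) + (y3 : ℂ) * I)) -
          ((dx : ℂ) + (dy : ℂ) * I) =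
        ((x1 * (x0 + x3) - y1 * (y0 + y3) - a * (x2 * x3 - y2 * y3) - dx : ℝ) : ℂ) +
          ((x1 * (y0 + y3) + y1 * (x0 + x3) - a * (x2 * y3 + y2 * x3) - dy : ℝ) : ℂ) * I := by
      intros x0 y0 x1 y1 x2 y2 x3 y3 a dx dy
      push_cast
      linear_combination ((y1 : ℂ) * (y0 + y3) - a * y2 * y3) * I_mul_I
    rw [e]
    refine (norm_re_im _ _).trans ?_
    have b1 : ∀ x : ℝ, -0.00005 ≤ x → x ≤ 0.00005 → |x| ≤ 0.00005 := fun x h h' => abs_le.2 ⟨h, h'⟩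
    refine (add_le_add (b1 _ ?_ ?_) (b1 _ ?_ ?_)).trans ?_ <;> norm_num
  have e : GG a u - DD = (GG a u - (c11 * (c10 + c13) - a1 * (c12 * c13))) +
      ((c11 * (c10 + c13) - a1 * (c12 * c13)) - DD) := by ring
  rw [e]
  refine (norm_add_le _ _).trans ((add_le_add h4 h5).trans ?_)
  norm_num

theorem dSw0 {a u : ℝ} (h : Dom a u) : HasDerivAt (fun u => Sw w0 a u) (Sw w1 a u) u := by
  have h1 := hasDeriv h (w := fun k => (w0 k : ℂ)) (fun k => by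
    rw [Complex.norm_real, Real.norm_eq_abs]
    unfold w0
    rw [abs_one]
    have : (0 : ℝ) ≤ k := by positivity
    linarith)
  refine h1.congr_deriv ?_
  unfold Sw
  apply tsum_congr
  intro k
  unfold w0 w1
  push_cast
  ring

theorem dSw1 {a u : ℝ} (h : Dom a u) : HasDerivAt (fun u => Sw w1 a u) (Sw w2 a u) u := by
  have h1 := hasDeriv h (w := fun k => (w1 k : ℂ)) (fun k => by
    rw [Complex.norm_real, Real.norm_eq_abs]
    unfold w1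
    have : (0 : ℝ) ≤ k := by positivity
    rw [abs_of_nonneg this]
    linarith)
  refine h1.congr_deriv ?_
  unfold Sw
  apply tsum_congr
  intro k
  unfold w1 w2
  push_cast
  ring

theorem dSwc {a u : ℝ} (h : Dom a u) :
    HasDerivAt (fun u => Sw (wc a) a u) ((Sw w0 a u - Sw (wc a) a u) / a) u := by
  have ha : 0 < a := by linarith [h.h1]
  have h1 := hasDeriv h (w := fun k => (wc a k : ℂ)) (fun k => by
    rw [Complex.norm_real, Real.norm_eq_abs]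
    have := wc_abs ha k
    have : (0 : ℝ) ≤ k := by positivity
    linarith)
  refine h1.congr_deriv ?_
  have s0 : Summable fun k => (w0 k : ℂ) * ee a u k :=
    term_summable h (w := fun k => (w0 k : ℂ)) (fun k => by
      rw [Complex.norm_real, Real.norm_eq_abs]; exact w0_le k)
  have sc : Summable fun k => (wc a k : ℂ) * ee a u k :=
    term_summable h (w := fun k => (wc a k : ℂ)) (fun k => by
      rw [Complex.norm_real, Real.norm_eq_abs]; exact wc_le ha k)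
  unfold Sw
  rw [← s0.tsum_sub sc, ← tsum_div_const]
  apply tsum_congr
  intro k
  unfold w0 wc
  have hk := arg_pos ha k
  have hk' : (a : ℂ) * k + 1 ≠ 0 := by
    have : ((a * k + 1 : ℝ) : ℂ) ≠ 0 := by exact_mod_cast hk.ne'
    push_cast at this
    exact this
  have ha' : (a : ℂ) ≠ 0 := by exact_mod_cast ha.ne'
  push_cast
  have hX : (1 : ℂ) / (a * k + 1) * (a * k + 1) = 1 := by
    rw [div_mul_cancel₀ _ hk']
  rw [eq_div_iff ha']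
  linear_combination (ee a u k) * hX

theorem dFF {a u : ℝ} (h : Dom a u) : HasDerivAt (fun u => FF a u) (GG a u) u := by
  have ha : 0 < a := by linarith [h.h1]
  have ha' : (a : ℂ) ≠ 0 := by exact_mod_cast ha.ne'
  have h1 := ((dSw0 h).pow 2).sub (((dSw1 h).mul (dSwc h)).const_mul (a : ℂ))
  refine h1.congr_deriv ?_
  unfold GG
  field_simp
  ring

theorem hL {a : ℝ} (ha : a ∈ Icc a1 a2) {u u' : ℝ} (hu : u ∈ Icc (-1e-6 : ℝ) 1e-6)
    (hu' : u' ∈ Icc (-1e-6 : ℝ) 1e-6) :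
    ‖FF a u - FF a u' - DD * ((u - u' : ℝ) : ℂ)‖ ≤ 0.0068 * |u - u'| := by
  have hd : ∀ x ∈ Icc (-1e-6 : ℝ) 1e-6, Dom a x := by
    intro x hx
    apply dom ha
    rw [abs_lt]
    constructor
    · refine lt_of_lt_of_le ?_ hx.1
      norm_num
    · refine lt_of_le_of_lt hx.2 ?_
      norm_num
  have h1 := Convex.norm_image_sub_le_of_norm_hasDerivWithin_le (𝕜 := ℝ)
    (f := fun x : ℝ => FF a x - DD * (x : ℂ)) (f' := fun x => GG a x - DD)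
    (s := Icc (-1e-6 : ℝ) 1e-6) (C := 0.0068) (x := u') (y := u) ?_ ?_ (convex_Icc _ _) hu' hu
  · have e : FF a u - FF a u' - DD * ((u - u' : ℝ) : ℂ) =
        (FF a u - DD * (u : ℂ)) - (FF a u' - DD * (u' : ℂ)) := by
      push_cast
      ring
    rw [e]
    rw [Real.norm_eq_abs] at h1
    exact h1
  · intro x hx
    have h2 : HasDerivAt (fun x : ℝ => DD * (x : ℂ)) (DD * 1) x :=
      (Complex.ofRealCLM.hasDerivAt (x := x)).const_mul DD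
    rw [mul_one] at h2
    exact ((dFF (hd x hx)).sub h2).hasDerivWithinAt
  · intro x hx
    exact G_near ha (abs_le.2 ⟨hx.1, hx.2⟩)

theorem cFF : ContinuousOn (fun p : ℝ × ℝ => FF p.1 p.2)
    (Icc a1 a2 ×ˢ Icc (-1e-6 : ℝ) 1e-6) := by
  have hd : ∀ p ∈ Icc a1 a2 ×ˢ Icc (-1e-6 : ℝ) 1e-6, Dom p.1 p.2 := by
    intro p hp
    apply dom hp.1
    rw [abs_lt]
    constructor
    · refine lt_of_lt_of_le ?_ hp.2.1
      norm_num
    · refine lt_of_le_of_lt hp.2.2 ?_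
      norm_num
  have k0 := cont hd (w := fun _ k => (w0 k : ℂ))
    (fun a k _ => by rw [Complex.norm_real, Real.norm_eq_abs]; exact w0_le k)
    (fun k => continuousOn_const)
  have k1 := cont hd (w := fun _ k => (w1 k : ℂ))
    (fun a k _ => by rw [Complex.norm_real, Real.norm_eq_abs]; exact w1_le k)
    (fun k => continuousOn_const)
  have kc := cont hd (w := fun a k => (wc a k : ℂ))
    (fun a k ha => by
      rw [Complex.norm_real, Real.norm_eq_abs]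
      exact wc_le (by linarith) k)
    (fun k => by
      apply Complex.continuous_ofReal.comp_continuousOn
      unfold wc
      apply ContinuousOn.div continuousOn_const (by fun_prop)
      intro p hp
      exact (arg_pos (by linarith [(hd p hp).h1]) k).ne')
  have ca : ContinuousOn (fun p : ℝ × ℝ => (p.1 : ℂ)) (Icc a1 a2 ×ˢ Icc (-1e-6 : ℝ) 1e-6) := by
    fun_prop
  exact (k0.pow 2).sub (ca.mul (k1.mul kc))

theorem zero_exists : ∃ a ∈ Icc a1 a2, ∃ u ∈ Icc (-1e-6 : ℝ) 1e-6, FF a u = 0 := by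
  obtain ⟨d1, d2⟩ := norm_DD
  apply exists_zero a12 (by norm_num) (κ := 0.0068) (D := DD) (by norm_num)
    (lt_of_lt_of_le (by norm_num) d1) cFF (fun a ha u hu u' hu' => hL ha hu hu')
  · intro a ha
    refine lt_of_le_of_lt (Fu_val ha) ?_
    refine lt_of_lt_of_le ?_ (mul_le_mul_of_nonneg_right (sub_le_sub_right d1 _) (by norm_num))
    norm_num
  · obtain ⟨h1, h2⟩ := F1_val
    rw [(conj_DD _).1, (conj_DD _).2]
    rw [abs_le] at h1 h2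
    have h3 : |0.05208 * (FF a1 0).re + 0.1016 * (FF a1 0).im| ≤ 1e-15 := by
      rw [abs_le]
      constructor <;> norm_num at * <;> linarith [h1.1, h1.2, h2.1, h2.2]
    have h4 : 5e-16 ≤ 0.05208 * (FF a1 0).im - 0.1016 * (FF a1 0).re := by
      norm_num at *
      linarith [h1.1, h1.2, h2.1, h2.2]
    calc 0.0068 * |0.05208 * (FF a1 0).re + 0.1016 * (FF a1 0).im| ≤ 0.0068 * 1e-15 := by gcongr
      _ < (0.114 - 0.0068) * 5e-16 := by norm_num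
      _ ≤ (‖DD‖ - 0.0068) * (0.05208 * (FF a1 0).im - 0.1016 * (FF a1 0).re) := by
          apply mul_le_mul (by linarith) h4 (by norm_num)
          refine le_trans ?_ (sub_le_sub_right d1 _)
          norm_num
  · obtain ⟨h1, h2⟩ := F2_val
    rw [(conj_DD _).1, (conj_DD _).2]
    rw [abs_le] at h1 h2
    have h3 : |0.05208 * (FF a2 0).re + 0.1016 * (FF a2 0).im| ≤ 1e-15 := by
      rw [abs_le]
      constructor <;> norm_num at * <;> linarith [h1.1, h1.2, h2.1, h2.2]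
    have h4 : 5e-16 ≤ -(0.05208 * (FF a2 0).im - 0.1016 * (FF a2 0).re) := by
      norm_num at *
      linarith [h1.1, h1.2, h2.1, h2.2]
    calc 0.0068 * |0.05208 * (FF a2 0).re + 0.1016 * (FF a2 0).im| ≤ 0.0068 * 1e-15 := by gcongr
      _ < (0.114 - 0.0068) * 5e-16 := by norm_num
      _ ≤ (‖DD‖ - 0.0068) * -(0.05208 * (FF a2 0).im - 0.1016 * (FF a2 0).re) := by
          apply mul_le_mul (by linarith) h4 (by norm_num)
          refine le_trans ?_ (sub_le_sub_right d1 _)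
          norm_num

end

end Pool.Agent.H30ML
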